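import Pool.Agent.Lib.MP_de9007_nt.PS.Init

/-! Products of binomial coefficients in place of monomials. -/

namespace Pool.Agent.Lib.MP_de9007_nt.PU

open NumberField Pool.Agent.Lib.MP_de9007_nt.PS

variable {ι κ : Type}

/-- A triangular basis of the polynomials in `w`. -/
structure BB (B : ι → Multiset κ → ℤ) (w : ι → κ → ℤ) : Prop where
  zero : ∀ i, B i 0 = 1
  cons : ∀ a τ, ∃ (k : ℕ) (s : ℤ), ∀ i, (k + 1) * B i (a ::ₘ τ) = (w i a + s) * B i τ

section

variable {L : Type} [Field L] [CharZero L] {B : ι → Multiset κ → ℤ} {w : ι → κ → ℤ}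

omit [CharZero L] in
theorem BB.step (H : BB B w) (I : Finset ι) (c : ι → ℤ) (y : ι → L) (a : κ) (τ τ' : Multiset κ) :
    ∃ (k : ℕ) (s : L), ((k : L) + 1) *
      ∑ i ∈ I, ((c i * B i (a ::ₘ τ) * mon (w i) τ' : ℤ) : L) * y i =
      ∑ i ∈ I, ((c i * B i τ * mon (w i) (a ::ₘ τ') : ℤ) : L) * y i +
        s * ∑ i ∈ I, ((c i * B i τ * mon (w i) τ' : ℤ) : L) * y i := by
  obtain ⟨k, s, h⟩ := H.cons a τ
  refine ⟨k, s, ?_⟩
  rw [Finset.mul_sum, Finset.mul_sum, ← Finset.sum_add_distrib]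
  refine Finset.sum_congr rfl fun i _ => ?_
  have h1 := congrArg (fun z : ℤ => (z : L)) (h i)
  simp only [mon_cons]
  push_cast at h1 ⊢
  linear_combination ((c i : L) * mon (w i) τ' * y i) * h1

theorem BB.of_mon (H : BB B w) (I : Finset ι) (c : ι → ℤ) (y : ι → L) {m : ℕ}
    (h : ∀ τ : Multiset κ, τ.card ≤ m → ∑ i ∈ I, ((c i * mon (w i) τ : ℤ) : L) * y i = 0)
    (τ τ' : Multiset κ) (hc : τ.card + τ'.card ≤ m) :
    ∑ i ∈ I, ((c i * B i τ * mon (w i) τ' : ℤ) : L) * y i = 0 := by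
  induction τ using Multiset.induction_on generalizing τ' with
  | empty => simpa [H.zero] using h τ' (by simpa using hc)
  | cons a τ ih =>
    obtain ⟨k, s, e⟩ := H.step I c y a τ τ'
    rw [Multiset.card_cons] at hc
    rw [ih (a ::ₘ τ') (by rw [Multiset.card_cons]; omega), ih τ' (by omega), mul_zero,
      add_zero] at e
    exact (mul_eq_zero.1 e).resolve_left (Nat.cast_add_one_ne_zero k)

omit [CharZero L] in
theorem BB.to_mon (H : BB B w) (I : Finset ι) (c : ι → ℤ) (y : ι → L) {m : ℕ}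
    (h : ∀ τ : Multiset κ, τ.card ≤ m → ∑ i ∈ I, ((c i * B i τ : ℤ) : L) * y i = 0)
    (τ : Multiset κ) (hc : τ.card ≤ m) :
    ∑ i ∈ I, ((c i * mon (w i) τ : ℤ) : L) * y i = 0 := by
  have key : ∀ τ' τ : Multiset κ, τ.card + τ'.card ≤ m →
      ∑ i ∈ I, ((c i * B i τ * mon (w i) τ' : ℤ) : L) * y i = 0 := by
    intro τ'
    induction τ' using Multiset.induction_on with
    | empty => intro τ hc; simpa [mon_zero] using h τ (by simpa using hc)
    | cons a τ' ih =>
      intro τ hc
      obtain ⟨k, s, e⟩ := H.step I c y a τ τ'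
      rw [Multiset.card_cons] at hc
      rw [ih (a ::ₘ τ) (by rw [Multiset.card_cons]; omega), ih τ (by omega), mul_zero, mul_zero,
        add_zero] at e
      exact e.symm
  simpa [H.zero] using key τ 0 (by simpa using hc)

end

theorem choose_small {y k K T : ℕ} (h : y ≤ K * T) : y.choose k ≤ K ^ k * 3 ^ T := by
  have h1 : ((y.choose k : ℕ) : ℝ) ≤ (y : ℝ) ^ k / k.factorial := by
    exact_mod_cast Nat.choose_le_pow_div (α := ℝ) k y
  have h2 := Real.pow_div_factorial_le_exp (T : ℝ) (Nat.cast_nonneg _) k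
  have h3 : Real.exp T ≤ 3 ^ T := by
    rw [← Real.exp_one_pow]
    gcongr
    exact Real.exp_one_lt_three.le
  have h4 : (y : ℝ) ≤ K * T := by exact_mod_cast h
  have h6 : ((y.choose k : ℕ) : ℝ) ≤ K ^ k * 3 ^ T :=
    calc _ ≤ _ := h1
      _ ≤ (K * T) ^ k / k.factorial := by gcongr
      _ = K ^ k * (T ^ k / k.factorial) := by rw [mul_pow]; ring
      _ ≤ K ^ k * 3 ^ T := by gcongr; exact h2.trans h3
  exact_mod_cast h6

theorem exists_BB [Fintype κ] (w : ι → κ → ℤ) {K T M : ℕ} (hK : 0 < K)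
    (hw : ∀ i a, |w i a| ≤ (K * T : ℕ)) (hM : T * Fintype.card κ ≤ M) :
    ∃ B : ι → Multiset κ → ℤ, BB B w ∧ ∀ i τ, τ.card ≤ M → |B i τ| ≤ ((6 * K) ^ M : ℕ) := by
  classical
  obtain ⟨y, hy⟩ : ∃ y : ι → κ → ℕ, ∀ i a, (y i a : ℤ) = w i a + (K * T : ℕ) :=
    ⟨fun i a => (w i a + (K * T : ℕ)).toNat, fun i a => Int.toNat_of_nonneg (by
      have := abs_le.1 (hw i a); omega)⟩
  refine ⟨fun i τ => ((∏ a, (y i a).choose (τ.count a) : ℕ) : ℤ), ⟨fun i => by simp, fun a τ =>
    ⟨τ.count a, (K * T : ℕ) - τ.count a, fun i => ?_⟩⟩, fun i τ hτ => ?_⟩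
  · rw [← Finset.mul_prod_erase _ _ (Finset.mem_univ a),
      ← Finset.mul_prod_erase _ (fun b => (y i b).choose (τ.count b)) (Finset.mem_univ a),
      Finset.prod_congr rfl fun b hb => by rw [Multiset.count_cons_of_ne (Finset.mem_erase.1 hb).1],
      Multiset.count_cons_self, ← add_sub_assoc, ← hy]
    generalize τ.count a = k
    have e : ((k : ℤ) + 1) * (y i a).choose (k + 1) = (y i a - k) * (y i a).choose k := by
      rcases le_or_gt k (y i a) with h | h
      · have := congrArg (Nat.cast : ℕ → ℤ) (Nat.choose_succ_right_eq (y i a) k)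
        push_cast [Nat.cast_sub h] at this
        linear_combination this
      · rw [Nat.choose_eq_zero_of_lt h, Nat.choose_eq_zero_of_lt (by omega)]
        simp
    rw [Nat.cast_mul, Nat.cast_mul, ← mul_assoc, e, mul_assoc]
  · rw [Nat.abs_cast, Nat.cast_le]
    have b1 : ∀ a, y i a ≤ 2 * K * T := fun a => by
      have := abs_le.1 (hw i a)
      have := hy i a
      rw [mul_assoc]
      omega
    calc _ ≤ ∏ a, (2 * K) ^ τ.count a * 3 ^ T := Finset.prod_le_prod' fun a _ => choose_small (b1 a)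
      _ = (2 * K) ^ τ.card * 3 ^ (T * Fintype.card κ) := by
        rw [Finset.prod_mul_distrib, Finset.prod_pow_eq_pow_sum,
          Multiset.sum_count_eq_card fun _ _ => Finset.mem_univ _, Finset.prod_const,
          Finset.card_univ, pow_mul]
      _ ≤ (2 * K) ^ M * 3 ^ M :=
        Nat.mul_le_mul (Nat.pow_le_pow_right (by omega) hτ) (Nat.pow_le_pow_right (by omega) hM)
      _ = _ := by rw [← mul_pow]; congr 1; ring

theorem card_filterMap_le (z : Multiset (Option κ)) : (z.filterMap id).card ≤ z.card := by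
  induction z using Multiset.induction_on with
  | empty => simp
  | cons a z ih =>
    rcases a with _ | a
    · rw [Multiset.filterMap_cons_none _ _ rfl, Multiset.card_cons]
      omega
    · rw [Multiset.filterMap_cons_some id _ _ (b := a) rfl, Multiset.card_cons, Multiset.card_cons]
      omega

theorem exists_sym2 (τ : Multiset κ) {m : ℕ} (h : τ.card ≤ m) :
    ∃ s : Sym (Option κ) m, s.1.filterMap id = τ := by
  refine ⟨⟨τ.map some + Multiset.replicate (m - τ.card) none, by simp; omega⟩, ?_⟩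
  have e : ∀ n, (Multiset.replicate n (none : Option κ)).filterMap id = 0 := fun n => by
    induction n with
    | zero => simp
    | succ n ih => rw [Multiset.replicate_succ, Multiset.filterMap_cons_none _ _ rfl, ih]
  simp only [Multiset.filterMap_add, e, add_zero, Multiset.filterMap_map, Function.id_comp,
    Multiset.filterMap_some]

theorem siegel2 {L : Type} [Field L] [NumberField L] [IsTotallyReal L] (hSG : SG) [Fintype ι]
    [Fintype κ] (θ : ι → L) {Dn : ℤ} {G : ℕ} (hD0 : Dn ≠ 0) (hD : |Dn| ≤ G)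
    (h1 : ∀ i, IsIntegral ℤ (Dn * θ i)) (h2 : ∀ i (σ : L →+* ℂ), ‖σ (Dn * θ i)‖ ≤ G)
    {B : ι → Multiset κ → ℤ} {w : ι → κ → ℤ} (H : BB B w) {Y S m : ℕ} (hY : 0 < Y)
    (hw : ∀ i τ, τ.card ≤ m → |B i τ| ≤ Y) (h0 : 0 < Fintype.card ι)
    (hN : 2 * Module.finrank ℚ L * (S * (Fintype.card κ + m).choose m) ≤ Fintype.card ι) :
    ∃ c : ι → ℤ, c ≠ 0 ∧ (∀ i, |c i| ≤ 2 * Fintype.card ι * (Y * G ^ (2 * S) : ℕ)) ∧
      ∀ s, Odd s → s < 2 * S → Van c w Finset.univ θ s m := by
  classical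
  have hG : 0 < G := by
    have := abs_pos.2 hD0
    omega
  have hs := fun i (e : Fin S) => size (F := L) hD (h1 i) (h2 i) (ρ := θ i) (e := 1)
    (s := 2 * e + 1) (μ := 2 * S) one_pos (by simp) (by omega)
  obtain ⟨c, c0, c1, c2⟩ := hSG L ι (Fin S × Sym (Option κ) m)
    (fun z i => (B i (z.2.1.filterMap id) : ℤ) *
      ((Dn : L) ^ (2 * S) * θ i ^ (2 * (z.1 : ℕ) + 1))) (Y * G ^ (2 * S)) (by positivity) h0
    (by
      rw [Fintype.card_prod, Fintype.card_fin, Sym.card_sym_eq_choose, Fintype.card_option,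
        show Fintype.card κ + 1 + m - 1 = Fintype.card κ + m by omega]
      exact hN)
    (fun z i => IsIntegral.mul (by
      rw [← eq_intCast (algebraMap ℤ L)]; exact isIntegral_algebraMap) (hs i z.1).1)
    (fun z i σ => by
      have a1 := hw i _ ((card_filterMap_le z.2.1).trans_eq z.2.2)
      rw [map_mul, norm_mul, map_intCast, Complex.norm_intCast]
      push_cast
      exact mul_le_mul (by exact_mod_cast a1) ((hs i z.1).2 σ) (norm_nonneg _) (by positivity))
  refine ⟨c, c0, c1, ?_⟩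
  rintro _ ⟨e, rfl⟩ he
  refine H.to_mon _ c (fun i => θ i ^ (2 * e + 1)) fun τ hτ => ?_
  obtain ⟨s, hs'⟩ := exists_sym2 τ hτ
  have a1 := c2 (⟨e, by omega⟩, s)
  simp only [hs'] at a1
  refine (mul_eq_zero.1 ?_).resolve_left (pow_ne_zero (2 * S) (Int.cast_ne_zero.2 hD0 : (Dn : L) ≠ 0))
  rw [← a1, Finset.mul_sum]
  exact Finset.sum_congr rfl fun i _ => by push_cast; ring

/-- The product of the differences at the points of an interval. -/
theorem diff_dvd {s S : ℕ} (h : s < S) :
    ∏ s' ∈ (Finset.range S).erase s, ((s : ℤ) - s') ∣ (S.factorial : ℕ) := by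
  have key : ∀ n, ∏ s' ∈ (Finset.range (s + 1 + n)).erase s, ((s : ℤ) - s') ∣
      (s.factorial * n.factorial : ℕ) := by
    intro n
    induction n with
    | zero =>
      rw [add_zero, Finset.range_add_one, Finset.erase_insert Finset.notMem_range_self,
        Finset.prod_range_natCast_sub, ← Nat.descFactorial_eq_prod_range, Nat.descFactorial_self]
      simp
    | succ n ih =>
      rw [← add_assoc, Finset.range_add_one, Finset.erase_insert_of_ne (by omega),
        Finset.prod_insert (by simp), Nat.factorial_succ, mul_left_comm, Nat.cast_mul]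
      refine mul_dvd_mul ⟨-1, ?_⟩ ih
      push_cast
      ring
  obtain ⟨n, rfl⟩ : ∃ n, S = s + 1 + n := ⟨S - (s + 1), by omega⟩
  exact (key n).trans (Int.natCast_dvd_natCast.2
    ((Nat.factorial_mul_factorial_dvd_factorial_add s n).trans
      (Nat.factorial_dvd_factorial (by omega))))

end Pool.Agent.Lib.MP_de9007_nt.PU
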