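import Pool.Agent.Lib.MP_de9007_nt.PS.FM

/-! Quasi-orthogonal generators of a lattice; coordinates linear in the size of the box. -/

namespace Pool.Agent.Lib.MP_de9007_nt.PU

open NumberField Module Pool.Agent.Lib.MP_de9007_nt.PS Pool.Agent.Lib.MP_de9007_nt.PS.FMAux

theorem near_int {E : Type} [SeminormedAddCommGroup E] [NormedSpace ℝ E] (y : E) (t : ℝ) :
    ‖t • y - (round t : ℤ) • y‖ ≤ ‖y‖ / 2 := by
  rw [← Int.cast_smul_eq_zsmul ℝ, ← sub_smul, norm_smul, Real.norm_eq_abs]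
  have := abs_sub_round t
  nlinarith [norm_nonneg y]

theorem QO (R : ℕ) {G : Type} [AddCommGroup G] (r : ℕ) : r ≤ R → ∀ (E : Type)
    [SeminormedAddCommGroup E] [NormedSpace ℝ E] [FiniteDimensional ℝ E] (ψ : G →+ E) (l : ℝ),
    finrank ℝ E ≤ r → 0 < l → (∀ v, ψ v ≠ 0 → l ≤ ‖ψ v‖) →
    ∃ u : Fin r → G, ∀ v, ∃ w : Fin r → ℤ, ψ v = ∑ a, w a • ψ (u a) ∧
      ∀ a, |(w a : ℝ)| * l ≤ (6 * R) ^ r * ‖ψ v‖ ∧
        |(w a : ℝ)| * ‖ψ (u a)‖ ≤ (6 * R) ^ r * ‖ψ v‖ := by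
  induction r with
  | zero =>
    intro _ E _ _ _ ψ l hr _ _
    have : Subsingleton E := finrank_zero_iff.1 (Nat.le_zero.1 hr)
    exact ⟨Fin.elim0, fun v => ⟨Fin.elim0, Subsingleton.elim _ _, fun a => a.elim0⟩⟩
  | succ r ih =>
    intro hR E _ _ _ ψ l hr hl h
    by_cases h0 : ∀ v, ψ v = 0
    · exact ⟨0, fun v => ⟨0, by simp [h0], fun a => by simp [h0]⟩⟩
    push Not at h0
    have hne : {t : ℝ | ∃ v, ψ v ≠ 0 ∧ ‖ψ v‖ = t}.Nonempty := ⟨_, h0.choose, h0.choose_spec, rfl⟩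
    have hb : l ∈ lowerBounds {t : ℝ | ∃ v, ψ v ≠ 0 ∧ ‖ψ v‖ = t} := by
      rintro _ ⟨v, hv, rfl⟩
      exact h v hv
    have h1 := le_csInf hne hb
    obtain ⟨_, ⟨v₁, v0, rfl⟩, h2⟩ := exists_lt_of_csInf_lt hne
      (show _ < 4 / 3 * sInf {t : ℝ | ∃ v, ψ v ≠ 0 ∧ ‖ψ v‖ = t} by linarith)
    have h3 : ∀ v, ψ v ≠ 0 → 3 / 4 * ‖ψ v₁‖ ≤ ‖ψ v‖ := fun v hv => by
      have := csInf_le ⟨l, hb⟩ (show ‖ψ v‖ ∈ {t : ℝ | ∃ v, ψ v ≠ 0 ∧ ‖ψ v‖ = t} from ⟨v, hv, rfl⟩)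
      linarith
    have h4 : l ≤ ‖ψ v₁‖ := h v₁ v0
    have h5 : 0 < ‖ψ v₁‖ := hl.trans_le h4
    obtain ⟨V, hV⟩ : ∃ V : Submodule ℝ E, V = Submodule.span ℝ {ψ v₁} := ⟨_, rfl⟩
    let ψ' : G →+ E ⧸ V := V.mkQ.toAddMonoidHom.comp ψ
    have hψ' : ∀ v, ψ' v = Submodule.Quotient.mk (ψ v) := fun _ => rfl
    have z1 : ψ' v₁ = 0 := by
      rw [hψ', Submodule.Quotient.mk_eq_zero, hV]
      exact Submodule.mem_span_singleton_self _
    have rep : ∀ v (ε : ℝ), 0 < ε → ∃ k : ℤ, ‖ψ (v - k • v₁)‖ ≤ ‖ψ' v‖ + ε + ‖ψ v₁‖ / 2 := by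
      intro v ε hε
      obtain ⟨m, m1, m2⟩ := Submodule.Quotient.norm_mk_lt (ψ' v) hε
      rw [hψ', eq_comm, Submodule.Quotient.eq, hV, Submodule.mem_span_singleton] at m1
      obtain ⟨t, ht⟩ := m1
      refine ⟨round t, ?_⟩
      have e : ψ (v - round t • v₁) = m + (t • ψ v₁ - round t • ψ v₁) := by
        rw [map_sub, map_zsmul, ht]; abel
      rw [e]
      have := norm_add_le m (t • ψ v₁ - round t • ψ v₁)
      have := near_int (ψ v₁) t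
      linarith
    have le' : ∀ v, ‖ψ' v‖ ≤ ‖ψ v‖ := fun v => Submodule.Quotient.norm_mk_le _ _
    obtain ⟨u, hu⟩ := ih (by omega) (E ⧸ V) ψ' (‖ψ v₁‖ / 4) (by
      have e1 := Submodule.finrank_quotient_add_finrank V
      have e2 : finrank ℝ V = 1 := hV ▸ finrank_span_singleton v0
      omega) (by positivity) (by
      intro v hv
      refine le_of_forall_pos_le_add fun ε hε => ?_
      obtain ⟨k, hk⟩ := rep v ε hε
      have := h3 (v - k • v₁) fun e => hv (by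
        have e1 : ψ' (v - k • v₁) = 0 := by rw [hψ', e, Submodule.Quotient.mk_zero]
        rwa [map_sub, map_zsmul, z1, smul_zero, sub_zero] at e1)
      linarith)
    choose k hk using fun a => rep (u a) (‖ψ v₁‖ / 2) (by positivity)
    refine ⟨Fin.cons v₁ fun a => u a - k a • v₁, fun v => ?_⟩
    obtain ⟨w, w1, w2⟩ := hu v
    obtain ⟨K, hK⟩ : ∃ K : ℝ, K = (6 * R) ^ r := ⟨_, rfl⟩
    have R1 : (r : ℝ) + 1 ≤ R := by exact_mod_cast hR
    have r0 : (0 : ℝ) ≤ r := Nat.cast_nonneg _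
    have K1 : 1 ≤ K := hK ▸ one_le_pow₀ (by linarith)
    rw [pow_succ, ← hK]
    rw [← hK] at w2
    have n0 := norm_nonneg (ψ v)
    have Kv : K * ‖ψ' v‖ ≤ K * ‖ψ v‖ := mul_le_mul_of_nonneg_left (le' v) (by linarith)
    have Kv0 : 0 ≤ K * ‖ψ v‖ := by positivity
    have b1 : ∀ a, |(w a : ℝ)| * ‖ψ (u a - k a • v₁)‖ ≤ 5 * (K * ‖ψ v‖) := fun a => by
      have := mul_le_mul_of_nonneg_left (hk a) (abs_nonneg (w a : ℝ))
      have := w2 a
      linarith [this.1, this.2]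
    obtain ⟨y, hy⟩ : ∃ y, y = v - ∑ a, w a • (u a - k a • v₁) := ⟨_, rfl⟩
    have y1 : ψ' y = 0 := by
      rw [hy, map_sub, map_sum, w1, sub_eq_zero]
      exact Finset.sum_congr rfl fun a _ => by
        rw [map_zsmul, map_sub, map_zsmul, z1, smul_zero, sub_zero]
    obtain ⟨j, hj⟩ := rep y (‖ψ v₁‖ / 8) (by positivity)
    have y2 : ψ y = j • ψ v₁ := by
      rw [← sub_eq_zero, ← map_zsmul, ← map_sub]
      by_contra hc
      have := h3 _ hc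
      rw [y1, norm_zero] at hj
      linarith
    have y3 : ψ y = ψ v - ∑ a, w a • ψ (u a - k a • v₁) := by
      rw [hy, map_sub, map_sum]
      simp only [map_zsmul]
    have b2 : |(j : ℝ)| * ‖ψ v₁‖ ≤ K * (6 * R) * ‖ψ v‖ := by
      have e1 : |(j : ℝ)| * ‖ψ v₁‖ = ‖ψ y‖ := by
        rw [y2, ← Int.cast_smul_eq_zsmul ℝ, norm_smul, Real.norm_eq_abs]
      have e2 : ‖∑ a, w a • ψ (u a - k a • v₁)‖ ≤ r * (5 * (K * ‖ψ v‖)) := by
        refine (norm_sum_le _ _).trans ((Finset.sum_le_card_nsmul _ _ (5 * (K * ‖ψ v‖))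
          fun a _ => ?_).trans (by simp))
        rw [← Int.cast_smul_eq_zsmul ℝ, norm_smul, Real.norm_eq_abs]
        exact b1 a
      have e3 := norm_sub_le (ψ v) (∑ a, w a • ψ (u a - k a • v₁))
      have e4 : ‖ψ v‖ ≤ K * ‖ψ v‖ := le_mul_of_one_le_left n0 K1
      rw [e1, y3]
      nlinarith
    have b3 : 5 * (K * ‖ψ v‖) ≤ K * (6 * R) * ‖ψ v‖ := by nlinarith
    refine ⟨Fin.cons j w, ?_, fun a => Fin.cases ?_ (fun a => ?_) a⟩
    · rw [Fin.sum_univ_succ]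
      simp only [Fin.cons_zero, Fin.cons_succ]
      rw [← y2, y3, sub_add_cancel]
    · simp only [Fin.cons_zero]
      exact ⟨(mul_le_mul_of_nonneg_left h4 (abs_nonneg _)).trans b2, b2⟩
    · simp only [Fin.cons_succ]
      refine ⟨(mul_le_mul_of_nonneg_left h4 (abs_nonneg _)).trans ?_, (b1 a).trans b3⟩
      have := (w2 a).1
      linarith

theorem core2 {κ S ι : Type} [Fintype κ] [Fintype S] (lam : κ → S → ℝ)
    (x : ι → κ → ℤ) (Δ N k : ℕ) (hN : 0 < N) (hk : Fintype.card κ ≤ k)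
    (h1 : ∀ i s, |∑ m, (x i m : ℝ) * lam m s| ≤ Δ)
    (h2 : ∀ v : κ → ℤ, (∀ s, |∑ m, (v m : ℝ) * lam m s| * N < 1) → v = 0) :
    ∃ (w : ι → Fin k → ℤ) (n : κ → Fin k → ℤ),
      (∀ i a, |w i a| ≤ ((6 * k) ^ k * N * Δ : ℕ)) ∧ ∀ i m, x i m = ∑ a, n m a * w i a := by
  have N0 : (0 : ℝ) < N := by exact_mod_cast hN
  let V : Submodule ℝ (S → ℝ) := Submodule.span ℝ (Set.range lam)
  let ψ₀ : (κ → ℤ) →+ (S → ℝ) := AddMonoidHom.mk' (fun v => ∑ m, (v m : ℝ) • lam m) fun a b => by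
    simp [add_smul, Finset.sum_add_distrib]
  have e0 : ∀ v s, ψ₀ v s = ∑ m, (v m : ℝ) * lam m s := fun v s => by
    simp [ψ₀, Finset.sum_apply]
  let ψ : (κ → ℤ) →+ V := ψ₀.codRestrict V fun v =>
    V.sum_mem fun m _ => V.smul_mem _ (Submodule.subset_span ⟨m, rfl⟩)
  have e1 : ∀ v, ‖ψ v‖ = ‖ψ₀ v‖ := fun _ => rfl
  have e2 : ∀ v, ‖ψ v‖ < (N : ℝ)⁻¹ → v = 0 := fun v hv => h2 v fun s => by
    have := (norm_le_pi_norm (ψ₀ v) s).trans_lt hv
    rwa [e0, Real.norm_eq_abs, ← one_div, lt_div_iff₀ N0] at this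
  have : FiniteDimensional ℝ V := FiniteDimensional.span_of_finite ℝ (Set.finite_range lam)
  obtain ⟨u, hu⟩ := QO k k le_rfl V ψ (N : ℝ)⁻¹ ((finrank_range_le_card lam).trans hk)
    (by positivity) fun v hv => not_lt.1 fun h => hv (by rw [e2 v h, map_zero])
  choose w w1 w2 using fun i => hu (x i)
  refine ⟨w, fun m a => u a m, fun i a => ?_, fun i m => ?_⟩
  · have b1 : ‖ψ (x i)‖ ≤ Δ := by
      rw [e1]
      refine (pi_norm_le_iff_of_nonneg (Nat.cast_nonneg _)).2 fun s => ?_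
      rw [e0, Real.norm_eq_abs]
      exact h1 i s
    have b2 := (w2 i a).1.trans (mul_le_mul_of_nonneg_left b1 (by positivity))
    rw [← div_eq_mul_inv, div_le_iff₀ N0, mul_right_comm] at b2
    exact_mod_cast b2
  · have b1 := e2 (x i - ∑ a, w i a • u a) (by
      rw [map_sub, map_sum, w1]
      simp only [map_zsmul, sub_self, norm_zero]
      positivity)
    have b2 := congrFun (sub_eq_zero.1 b1) m
    rw [b2, Finset.sum_apply]
    exact Finset.sum_congr rfl fun a _ => by rw [Pi.smul_apply, smul_eq_mul, mul_comm]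

theorem FM2 (hB : BX) (L : Type) [Field L] [NumberField L] [IsTotallyReal L] (ι : Type)
    (ε : ι → (𝓞 L)ˣ) (Δ : ℕ) (h1 : ∀ i (σ : L →+* ℂ), ‖σ (ε i : 𝓞 L)‖ ≤ 2 ^ Δ)
    (h2 : ∀ i (σ : L →+* ℂ), ‖σ (((ε i)⁻¹ : (𝓞 L)ˣ) : 𝓞 L)‖ ≤ 2 ^ Δ) :
    ∃ (w x : ι → Fin (finrank ℚ L - 1) → ℤ) (φ : Fin (finrank ℚ L - 1) → (𝓞 L)ˣ)
      (n : Fin (finrank ℚ L - 1) → Fin (finrank ℚ L - 1) → ℤ),
      (∀ i a, |w i a| ≤ ((30 * finrank ℚ L) ^ finrank ℚ L * Δ : ℕ)) ∧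
      (∀ i, ε i ^ 2 = (∏ m, φ m ^ x i m) ^ 2) ∧ ∀ i m, x i m = ∑ a, n m a * w i a := by
  have hr : finrank ℚ L - 1 = Units.rank L := by
    rw [Units.rank, InfinitePlace.card_eq_nrRealPlaces_add_nrComplexPlaces,
      IsTotallyReal.nrComplexPlaces_eq_zero, add_zero, IsTotallyReal.finrank]
  rw [hr]
  choose t ht using fun i => (Units.exist_unique_eq_mul_prod L (ε i)).exists
  have hsq : ∀ i, ε i ^ 2 = (∏ m, Units.fundSystem L m ^ (t i).2 m) ^ 2 := by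
    intro i
    conv_lhs => rw [ht i]
    rw [mul_pow, sq_torsion (t i).1.2, one_mul]
  have k1 : ∀ i (σ : L →+* ℂ),
      |∑ m, ((t i).2 m : ℝ) * lg σ (Additive.ofMul (Units.fundSystem L m))| ≤ Δ := by
    intro i σ
    rw [← lg_prod]
    have h3 := congrArg (fun u => lg σ (Additive.ofMul u)) (hsq i)
    simp only [ofMul_pow, map_nsmul, nsmul_eq_mul] at h3
    have h4 := mul_left_cancel₀ (by norm_num) h3
    rw [← h4]
    exact abs_lg_le σ _ Δ (h1 i σ) (h2 i σ)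
  have k2 : ∀ v : Fin (Units.rank L) → ℤ, (∀ σ : L →+* ℂ,
      |∑ m, (v m : ℝ) * lg σ (Additive.ofMul (Units.fundSystem L m))| *
        (5 ^ finrank ℚ L : ℕ) < 1) → v = 0 := by
    intro v hv
    have h3 := torsion_of_small hB (∏ m, Units.fundSystem L m ^ v m) fun σ => by
      rw [lg_prod]
      exact hv σ
    have h4 := (Units.exist_unique_eq_mul_prod L (∏ m, Units.fundSystem L m ^ v m)).unique
      (y₁ := (1, v)) (y₂ := (⟨_, h3⟩, 0)) (by simp) (by simp)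
    exact congrArg Prod.snd h4
  obtain ⟨w, n, hw, hn⟩ := core2
    (fun m (σ : L →+* ℂ) => lg σ (Additive.ofMul (Units.fundSystem L m))) (fun i => (t i).2) Δ
    (5 ^ finrank ℚ L) (Units.rank L) (by positivity) (by simp) k1 k2
  refine ⟨w, fun i => (t i).2, Units.fundSystem L, n, fun i a => (hw i a).trans ?_, hsq, hn⟩
  have d0 : 0 < finrank ℚ L := finrank_pos
  have e1 : (6 * Units.rank L) ^ Units.rank L ≤ (6 * finrank ℚ L) ^ finrank ℚ L :=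
    (Nat.pow_le_pow_left (by omega) _).trans (Nat.pow_le_pow_right (by omega) (by omega))
  refine Nat.cast_le.2 (Nat.mul_le_mul_right _ ((Nat.mul_le_mul_right _ e1).trans_eq ?_))
  rw [← mul_pow]
  congr 1
  ring

end Pool.Agent.Lib.MP_de9007_nt.PU
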