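import Pool.Agent.Lib.MP_de9007_nt.PS.SW

/-! The `q`-adic Schwarz lemma with no bound on the precision (divided powers). -/

namespace Pool.Agent.Lib.MP_de9007_nt.PU

open Finset Polynomial Pool.Agent.Lib.MP_de9007_nt.PS Pool.Agent.Lib.MP_de9007_nt.PS.SWAux

/-- Divided powers. -/
structure DP {A : Type*} [CommRing A] (K : ℕ) (c : ℕ → A) : Prop where
  zero : c 0 = 1
  mul : ∀ i j, c (i + j) * ((i + j).choose i : ℕ) = c i * c j
  top : ∀ k, K ≤ k → c k = 0

section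

variable {A : Type*} [CommRing A] {K : ℕ} {c : ℕ → A}

theorem DP.map {B : Type*} [CommRing B] (f : A →+* B) (h : DP K c) : DP K fun k => f (c k) :=
  ⟨by rw [h.zero, map_one], fun i j => by rw [← map_mul, ← h.mul, map_mul, map_natCast],
    fun k hk => by rw [h.top k hk, map_zero]⟩

theorem DP.coeff (h : DP K c) (a : A) (d : ℕ) :
    (ex K (fun k => C (c k)) (C a * X)).coeff d = c d * a ^ d := by
  rcases lt_or_ge d K with hd | hd
  · exact coeff_ex K c a d hd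
  · rw [h.top d hd, zero_mul]
    unfold ex
    rw [finsetSum_coeff]
    refine sum_eq_zero fun k hk => ?_
    rw [mul_pow, ← C_pow, ← mul_assoc, ← C_mul, coeff_C_mul_X_pow,
      if_neg (by have := mem_range.1 hk; omega)]

theorem DP.add (h : DP K c) (a b : A) : ex K c (a + b) = ex K c a * ex K c b := by
  have h1 : ex K (fun k => C (c k)) (C (a + b) * X) =
      ex K (fun k => C (c k)) (C a * X) * ex K (fun k => C (c k)) (C b * X) := by
    ext d
    rw [coeff_mul, h.coeff, (Commute.all a b).add_pow', mul_sum]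
    refine sum_congr rfl fun m hm => ?_
    have hm' : m.1 + m.2 = d := mem_antidiagonal.1 hm
    rw [h.coeff, h.coeff, nsmul_eq_mul, ← hm']
    linear_combination (a ^ m.1 * b ^ m.2) * h.mul m.1 m.2
  have h8 := congrArg (evalRingHom (1 : A)) h1
  simpa only [map_mul, map_ex, coe_evalRingHom, eval_C, eval_X, mul_one] using h8

theorem DP.ext (h : DP K c) (m : ℕ) (y : A) : ex K c y = ex (K + m) c y := by
  induction m with
  | zero => rfl
  | succ m ih =>
    rw [ih, ← add_assoc]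
    unfold ex
    rw [sum_range_succ, h.top _ (Nat.le_add_right K m), zero_mul, add_zero]

theorem DP.ex_zero (h : DP K c) : ex K c 0 = 1 := by
  rw [h.ext 1]
  simp [ex, sum_range_succ', h.zero]

theorem DP.mul_nat (h : DP K c) (a : A) (z : ℕ) : ex K c (a * z) = ex K c a ^ z := by
  induction z with
  | zero => simpa using h.ex_zero
  | succ z ih =>
    rw [pow_succ, ← ih, ← h.add]
    congr 1
    push_cast
    ring

theorem DP.shape (h : DP K c) {p : A} (h1 : c 1 = p) (h2 : ∀ k, 2 ≤ k → p ^ 2 ∣ c k) (y : A) :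
    ∃ w, ex K c y = 1 + p * y * (1 + p * w) := by
  choose! d hd using h2
  refine ⟨∑ k ∈ range K, d (k + 1 + 1) * y ^ (k + 1), ?_⟩
  rw [h.ext 2]
  unfold ex
  rw [sum_range_succ', sum_range_succ', h.zero, zero_add, h1, mul_add, mul_sum, mul_sum]
  have : ∑ k ∈ range K, c (k + 1 + 1) * y ^ (k + 1 + 1) =
      ∑ k ∈ range K, p * y * (p * (d (k + 1 + 1) * y ^ (k + 1))) :=
    sum_congr rfl fun k _ => by rw [hd _ (by omega)]; ring
  rw [this]
  ring

theorem DP.inj (h : DP K c) {p : A} (h1 : c 1 = p) (h2 : ∀ k, 2 ≤ k → p ^ 2 ∣ c k) {n : ℕ}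
    (hp : p ^ n = 0) (y y' : A) : ex K c y = ex K c y' ↔ p * y = p * y' := by
  obtain ⟨w, hw⟩ := h.shape h1 h2 (y - y')
  constructor
  · intro e
    have e1 : ex K c (y - y') = 1 := by
      rw [sub_eq_add_neg, h.add, e, ← h.add, add_neg_cancel, h.ex_zero]
    have h3 : IsUnit (1 + p * w) := IsNilpotent.isUnit_one_add ⟨n, by rw [mul_pow, hp, zero_mul]⟩
    have h4 : p * (y - y') * (1 + p * w) = 0 := by linear_combination e1 - hw
    have h5 := (h3.mul_left_eq_zero).1 h4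
    linear_combination h5
  · intro e
    rw [mul_sub, e, sub_self, zero_mul, add_zero] at hw
    rw [← add_sub_cancel y' y, h.add, hw, mul_one]

theorem DP.exists_lam [Finite A] (h : DP K c) {p : A} (h1 : c 1 = p)
    (h2 : ∀ k, 2 ≤ k → p ^ 2 ∣ c k) {n : ℕ} (hp : p ^ n = 0) :
    ∃ lam : A → A, ∀ u, p ∣ u - 1 → ex K c (lam u) = u := by
  have h0 : ∀ y : A, p ∣ ex K c y - 1 := by
    intro y
    obtain ⟨w, hw⟩ := h.shape h1 h2 y
    rw [hw, add_sub_cancel_left, mul_assoc]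
    exact dvd_mul_right _ _
  let f : {y : A // p ∣ y} → {y : A // p ∣ y} := fun y => ⟨ex K c y.2.choose - 1, h0 _⟩
  have hf : Function.Injective f := by
    intro y y' e
    have e1 : ex K c y.2.choose - 1 = ex K c y'.2.choose - 1 := congrArg Subtype.val e
    have e2 := (h.inj h1 h2 hp _ _).1 (sub_left_injective e1)
    exact Subtype.ext (y.2.choose_spec.trans (e2.trans y'.2.choose_spec.symm))
  have hs := Finite.injective_iff_surjective.1 hf
  have h3 : ∀ u : A, p ∣ u - 1 → ∃ y, ex K c y = u := by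
    intro u hu
    obtain ⟨y, hy⟩ := hs ⟨u - 1, hu⟩
    have e1 : ex K c y.2.choose - 1 = u - 1 := congrArg Subtype.val hy
    exact ⟨_, sub_left_injective e1⟩
  choose! lam hl using h3
  exact ⟨lam, hl⟩

end

/-- A partition of a power of `P`. -/
theorem unity (Z : Finset ℕ) (t : ℕ) (P : ℤ)
    (hP : ∀ z ∈ Z, ∏ z' ∈ Z.erase z, ((z : ℤ) - z') ∣ P) :
    ∃ (α : ℕ → ℤ[X]) (γ : ℤ[X]), C P ^ (2 * t) =
      ∑ z ∈ Z, α z * ∏ z' ∈ Z.erase z, (X - C (z' : ℤ)) ^ t +
        (∏ z ∈ Z, (X - C (z : ℤ)) ^ t) * γ := by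
  have h1 : ∀ z ∈ Z, ∃ α : ℤ[X], (X - C (z : ℤ)) ^ t ∣
      C P ^ (2 * t) - α * ∏ z' ∈ Z.erase z, (X - C (z' : ℤ)) ^ t := by
    intro z hz
    obtain ⟨u, hu⟩ := hP z hz
    obtain ⟨s, hs⟩ : X - C (z : ℤ) ∣ C P - C u * ∏ z' ∈ Z.erase z, (X - C (z' : ℤ)) := by
      rw [dvd_iff_isRoot, IsRoot.def, eval_sub, eval_mul, eval_C, eval_C, eval_prod, hu]
      simp only [eval_sub, eval_X, eval_C]
      ring
    have h2 := (Ideal.span {(∏ z' ∈ Z.erase z, (X - C (z' : ℤ))) ^ t,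
      (X - C (z : ℤ)) ^ t}).add_pow_mem_of_pow_mem_of_le
      (a := C u * ∏ z' ∈ Z.erase z, (X - C (z' : ℤ))) (b := (X - C (z : ℤ)) * s) (m := t) (n := t)
      (k := 2 * t) (by
        rw [mul_pow]
        exact Ideal.mul_mem_left _ _ (Ideal.subset_span (by simp))) (by
        rw [mul_pow]
        exact Ideal.mul_mem_right _ _ (Ideal.subset_span (by simp))) (by omega)
    rw [← hs, add_sub_cancel, Ideal.mem_span_pair] at h2
    obtain ⟨α, β, h3⟩ := h2
    refine ⟨α, β, ?_⟩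
    rw [prod_pow, ← h3]
    ring
  choose! α hα using h1
  have h2 : ∀ z ∈ Z, (X - C (z : ℤ)) ^ t ∣
      C P ^ (2 * t) - ∑ z ∈ Z, α z * ∏ z' ∈ Z.erase z, (X - C (z' : ℤ)) ^ t := by
    intro z hz
    rw [← add_sum_erase _ _ hz, ← sub_sub]
    refine (hα z hz).sub (dvd_sum fun y hy => Dvd.dvd.mul_left ?_ _)
    exact dvd_prod_of_mem (fun z' : ℕ => (X - C (z' : ℤ)) ^ t)
      (mem_erase.2 ⟨(mem_erase.1 hy).1.symm, hz⟩)
  have h3 : ∏ z ∈ Z, (X - C (z : ℤ)) ^ t ∣
      C P ^ (2 * t) - ∑ z ∈ Z, α z * ∏ z' ∈ Z.erase z, (X - C (z' : ℤ)) ^ t := by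
    rw [← map_dvd_map (Int.castRingHom ℚ) (RingHom.injective_int _)
      (monic_prod_of_monic _ _ fun z _ => (monic_X_sub_C _).pow _), Polynomial.map_prod]
    refine prod_dvd_of_coprime ?_ fun z hz => Polynomial.map_dvd _ (h2 z hz)
    intro z _ z' _ hne
    simp only [Function.onFun, Polynomial.map_pow, Polynomial.map_sub, map_X, map_C]
    refine (isCoprime_X_sub_C_of_isUnit_sub (IsUnit.mk0 _ ?_)).pow
    simpa [sub_eq_zero] using hne
  obtain ⟨γ, hγ⟩ := h3
  exact ⟨α, γ, by rw [← hγ]; ring⟩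

theorem vanish2 {A B ι : Type*} [CommRing A] [CommRing B] (f : A →+* B) {K t : ℕ} {c : ℕ → A}
    (h : DP K c) (I : Finset ι) (a l : ι → A) (Z : Finset ℕ) (P : ℤ)
    (hP : ∀ z ∈ Z, ∏ z' ∈ Z.erase z, ((z : ℤ) - z') ∣ P)
    (hc : ∀ k, Z.card * t ≤ k → f (c k) = 0) (hf : ∀ y : A, (P : A) ^ (2 * t) * y = 0 → f y = 0)
    (h0 : ∀ z ∈ Z, ∀ k < t, ∑ i ∈ I, a i * l i ^ k * ex K c (l i) ^ z = 0) (z : ℕ) :
    f (∑ i ∈ I, a i * ex K c (l i) ^ z) = 0 := by
  rcases subsingleton_or_nontrivial B with hB | hB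
  · exact Subsingleton.elim _ _
  have hA : Nontrivial A := f.domain_nontrivial
  have h' := h.map (C : A →+* A[X])
  obtain ⟨Φ, hΦ⟩ : ∃ Φ : A[X], Φ = ∑ i ∈ I, C (a i) * ex K (fun k => C (c k)) (C (l i) * X) :=
    ⟨_, rfl⟩
  have h1 : ∀ z ∈ Z, (X - C (z : A)) ^ t ∣ Φ := by
    intro z hzZ
    have h3 : ∀ i ∈ I, C (a i) * ex K (fun k => C (c k)) (C (l i) * X) =
        ∑ k ∈ range K, C (c k * (a i * l i ^ k * ex K c (l i) ^ z)) * (X - C (z : A)) ^ k := by
      intro i _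
      have h4 : C (l i) * X = C (l i * z) + C (l i) * (X - C (z : A)) := by
        rw [C_mul]
        ring
      rw [h4, h'.add, ← map_ex, h.mul_nat, ex.eq_1 K (fun k => C (c k)), mul_sum, mul_sum]
      refine sum_congr rfl fun k _ => ?_
      simp only [C_mul, C_pow, mul_pow]
      ring
    rw [hΦ, sum_congr rfl h3, sum_comm]
    refine dvd_sum fun k _ => ?_
    rw [← sum_mul, ← map_sum, ← mul_sum]
    rcases lt_or_ge k t with hk | hk
    · rw [h0 z hzZ k hk, mul_zero, C_0, zero_mul]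
      exact dvd_zero _
    · exact (pow_dvd_pow _ hk).mul_left _
  obtain ⟨W, hW⟩ : ∃ W : A[X], W = ∏ z ∈ Z, (X - C (z : A)) ^ t := ⟨_, rfl⟩
  have h6 : W ∣ C ((P : A) ^ (2 * t)) * Φ := by
    obtain ⟨α, γ, e⟩ := unity Z t P hP
    have e1 := congrArg (Polynomial.map (Int.castRingHom A)) e
    simp only [Polynomial.map_pow, Polynomial.map_add, Polynomial.map_sum, Polynomial.map_mul,
      Polynomial.map_prod, Polynomial.map_sub, map_X, map_C] at e1
    simp only [eq_intCast (Int.castRingHom A), Int.cast_natCast] at e1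
    rw [C_pow, e1, add_mul, sum_mul, ← hW]
    refine Dvd.dvd.add (dvd_sum fun y hy => ?_) ((dvd_mul_right _ _).mul_right _)
    rw [mul_assoc, hW, ← prod_erase_mul _ _ hy]
    exact (mul_dvd_mul_left _ (h1 y hy)).mul_left _
  have h7 : W.Monic := hW ▸ monic_prod_of_monic _ _ fun z _ => (monic_X_sub_C _).pow _
  have h8 : W.natDegree = Z.card * t := by
    rw [hW, natDegree_prod_of_monic _ _ fun z _ => (monic_X_sub_C _).pow _]
    rw [sum_congr rfl fun (z : ℕ) _ => (monic_X_sub_C (z : A)).natDegree_pow t]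
    simp only [natDegree_X_sub_C, mul_one, sum_const, smul_eq_mul]
  have h9 : f ((Φ %ₘ W).eval (z : A)) = 0 := by
    refine hf _ ?_
    rw [← modByMonic_eq_zero_iff_dvd h7, ← smul_eq_C_mul, smul_modByMonic] at h6
    have e := congrArg (eval (z : A)) h6
    rwa [eval_smul, smul_eq_mul, eval_zero] at e
  have h10 : (Φ /ₘ W).map f = 0 := by
    rw [map_divByMonic f h7, divByMonic_eq_zero_iff (h7.map f), h7.degree_map,
      degree_eq_natDegree h7.ne_zero, h8, degree_lt_iff_coeff_zero]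
    intro m hm
    rw [coeff_map, hΦ, finsetSum_coeff, map_sum]
    refine sum_eq_zero fun i _ => ?_
    rw [coeff_C_mul, h.coeff, map_mul, map_mul, hc m hm, zero_mul, mul_zero]
  have h11 : Φ.eval (z : A) = ∑ i ∈ I, a i * ex K c (l i) ^ z := by
    have e := congrArg (evalRingHom (z : A)) hΦ
    simp only [map_sum, map_mul, map_ex, coe_evalRingHom, eval_C, eval_X] at e
    rw [e]
    exact sum_congr rfl fun i _ => by rw [h.mul_nat]
  rw [← h11, ← modByMonic_add_div Φ W, eval_add, eval_mul, map_add, map_mul, h9,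
    ← eval₂_at_apply f (z : A) (p := Φ /ₘ W), ← eval_map, h10, eval_zero, mul_zero, add_zero]

theorem divpow {q : ℕ} [hq : Fact q.Prime] (h5 : 5 ≤ q) (k : ℕ) :
    ∃ y : ℤ_[q], y * (k.factorial : ℕ) = q ^ k ∧ (q : ℤ_[q]) ^ (k - k / 4) ∣ y := by
  have h1 := Nat.ordProj_mul_ordCompl_eq_self k.factorial q
  have h2 := Nat.not_dvd_ordCompl hq.out k.factorial_ne_zero
  have h3 := (Nat.factorization_factorial_le_div_pred hq.out k).trans
    (Nat.div_le_div_left (show 4 ≤ q - 1 by omega) (by norm_num))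
  generalize k.factorial / q ^ k.factorial.factorization q = m at h1 h2
  generalize k.factorial.factorization q = v at h1 h3
  obtain ⟨u, hu⟩ : IsUnit (m : ℤ_[q]) := PadicInt.isUnit_iff.2
    (PadicInt.norm_natCast_eq_one_iff.2 ((Nat.Prime.coprime_iff_not_dvd hq.out).2 h2))
  refine ⟨q ^ (k - v) * (u⁻¹ : ℤ_[q]ˣ), ?_, (pow_dvd_pow _ (by omega)).mul_right _⟩
  rw [← h1]
  push_cast
  rw [← hu, mul_mul_mul_comm, Units.inv_mul, mul_one, ← pow_add]
  congr 1
  omega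

theorem SW2 (q : ℕ) [hq : Fact q.Prime] (n n' t e ω : ℕ) (ι κ : Type) [Fintype κ] (I : Finset ι)
    (a k : ι → ℤ) (x : ι → κ → ℤ) (r : ι → ℚ_[q]) (g ρ : ℚ_[q]) (φ : κ → ℚ_[q]) (Z : Finset ℕ)
    (P : ℤ) (h5 : 5 ≤ q) (he : ¬ q ∣ e) (hn : 2 * n' ≤ Z.card * t) (hn' : n' + 2 * t * ω ≤ n)
    (hP : ¬ (q : ℤ) ∣ P) (hZ : ∀ z ∈ Z, ∏ z' ∈ Z.erase z, ((z : ℤ) - z') ∣ (q : ℤ) ^ ω * P)
    (hr : ∀ i ∈ I, ‖r i - 1‖ < 1) (hg : ‖g‖ = 1) (hρ : ‖ρ‖ = 1) (hφ : ∀ m, ‖φ m‖ = 1)
    (hgq : ‖g ^ (q - 1) - 1‖ ≤ (q : ℝ) ^ (-(n : ℤ)))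
    (hrel : ∀ i ∈ I, r i ^ e * ρ = g ^ k i * ∏ m, φ m ^ x i m)
    (hvan : ∀ z ∈ Z, ∀ τ : Multiset κ, τ.card < t →
      ∑ i ∈ I, ((a i * mon (x i) τ : ℤ) : ℚ_[q]) * r i ^ z = 0) (z : ℕ) :
    ‖∑ i ∈ I, (a i : ℚ_[q]) * r i ^ z‖ ≤ (q : ℝ) ^ (-(n' : ℤ)) := by
  have hqp : q.Prime := hq.out
  have : NeZero (q ^ n) := ⟨pow_ne_zero _ hqp.ne_zero⟩
  have hp : (q : ZMod (q ^ n)) ^ n = 0 := by rw [← Nat.cast_pow, ZMod.natCast_self]
  choose c0 hc0 hc1 using divpow h5
  set π : ℤ_[q] →+* ZMod (q ^ n) := PadicInt.toZModPow n with hπ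
  have hcd : ∀ j k, j ≤ k - k / 4 → (q : ZMod (q ^ n)) ^ j ∣ π (c0 k) := fun j k hj => by
    have h := map_dvd π ((pow_dvd_pow _ hj).trans (hc1 k))
    rwa [map_pow, map_natCast] at h
  have hD : DP (2 * n) fun k => π (c0 k) := by
    refine ⟨?_, fun i j => ?_, fun k hk => ?_⟩
    · have h := hc0 0
      rw [Nat.factorial_zero, Nat.cast_one, mul_one, pow_zero] at h
      rw [h, map_one]
    · rw [← map_natCast π, ← map_mul, ← map_mul]
      congr 1
      have h0 : ((i.factorial * j.factorial : ℕ) : ℤ_[q]) ≠ 0 :=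
        Nat.cast_ne_zero.2 (mul_ne_zero i.factorial_ne_zero j.factorial_ne_zero)
      refine mul_right_cancel₀ h0 ?_
      have h1 := Nat.add_choose_mul_factorial_mul_factorial i j
      rw [← Nat.choose_symm_add] at h1
      rw [mul_assoc, ← Nat.cast_mul, ← mul_assoc, h1, hc0, Nat.cast_mul, mul_mul_mul_comm, hc0, hc0,
        pow_add]
    · have h := hcd n k (by omega)
      rwa [hp, zero_dvd_iff] at h
  have hD1 : (fun k => π (c0 k)) 1 = q := by
    have h := hc0 1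
    rw [Nat.factorial_one, Nat.cast_one, mul_one, pow_one] at h
    simp only [h, map_natCast]
  have hD2 : ∀ k, 2 ≤ k → (q : ZMod (q ^ n)) ^ 2 ∣ (fun k => π (c0 k)) k :=
    fun k hk => hcd 2 k (by omega)
  obtain ⟨lam, hlam⟩ := hD.exists_lam hD1 hD2 hp
  have hadd : ∀ u v : ZMod (q ^ n), (q : ZMod (q ^ n)) ∣ u - 1 → (q : ZMod (q ^ n)) ∣ v - 1 →
      q * lam (u * v) = q * lam u + q * lam v := by
    intro u v hu hv
    have huv : (q : ZMod (q ^ n)) ∣ u * v - 1 := by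
      rw [(by ring : u * v - 1 = (u - 1) * v + (v - 1))]
      exact (hu.mul_right _).add hv
    rw [← mul_add, ← hD.inj hD1 hD2 hp, hD.add, hlam _ huv, hlam u hu, hlam v hv]
  have hlg1 : q * lam 1 = 0 := by
    have h := hadd 1 1 (by simp) (by simp)
    rw [mul_one] at h
    linear_combination -h
  have hlgpow : ∀ u : ZMod (q ^ n), (q : ZMod (q ^ n)) ∣ u - 1 → ∀ m : ℕ,
      q * lam (u ^ m) = m * (q * lam u) := by
    intro u hu m
    induction m with
    | zero => simp [hlg1]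
    | succ m ih =>
      rw [pow_succ, hadd _ _ (hu.trans (sub_one_dvd_pow_sub_one u m)) hu, ih]
      push_cast
      ring
  have hdv : ∀ w : ℤ_[q], (q : ℤ_[q]) ∣ w - 1 → (q : ZMod (q ^ n)) ∣ π w - 1 := by
    intro w hw
    have h := map_dvd π hw
    rwa [map_natCast, map_sub, map_one] at h
  let Lam : ℤ_[q]ˣ →* Multiplicative (ZMod (q ^ n)) := MonoidHom.mk'
    (fun u => Multiplicative.ofAdd (q * lam (π ((u : ℤ_[q]) ^ (q - 1))))) (by
      intro u v
      rw [← ofAdd_add, Units.val_mul, mul_pow, map_mul π,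
        hadd _ _ (hdv _ (fermat u)) (hdv _ (fermat v))])
  have hLam : ∀ u : ℤ_[q]ˣ, (Lam u).toAdd = q * lam (π ((u : ℤ_[q]) ^ (q - 1))) := fun u => rfl
  let j : ℤ_[q]ˣ →* ℚ_[q] := (PadicInt.Coe.ringHom (p := q)).toMonoidHom.comp (Units.coeHom _)
  have hj : ∀ u : ℤ_[q]ˣ, j u = ((u : ℤ_[q]) : ℚ_[q]) := fun u => rfl
  have hjinj : Function.Injective j := fun u v h => Units.ext (Subtype.ext h)
  have hr0 : ∀ i ∈ I, ∃ u : ℤ_[q]ˣ, ((u : ℤ_[q]) : ℚ_[q]) = r i ∧
      (q : ℤ_[q]) ∣ (u : ℤ_[q]) - 1 := fun i hi => lift_one (hr i hi)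
  choose! R hR using hr0
  have hG : Lam (PadicInt.mkUnits hg) = 1 := by
    have h1 : π (((PadicInt.mkUnits hg : ℤ_[q]ˣ) : ℤ_[q]) ^ (q - 1) - 1) = 0 := by
      rw [hπ, ← norm_le_iff, PadicInt.coe_sub, PadicInt.coe_pow, PadicInt.mkUnits_eq,
        PadicInt.coe_one]
      exact hgq
    rw [map_sub, map_one, sub_eq_zero] at h1
    apply Multiplicative.toAdd.injective
    rw [hLam, h1, hlg1, toAdd_one]
  have hunit : IsUnit (((e * (q - 1 : ℕ) : ℕ) : ℤ) : ZMod (q ^ n)) := by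
    refine unit_int hqp n ?_
    rw [Int.natCast_dvd_natCast, hqp.dvd_mul]
    rintro (h | h)
    · exact he h
    · have h3 := Nat.le_of_dvd (by omega) h
      omega
  obtain ⟨v, hv⟩ := hunit.exists_left_inv
  rw [Int.cast_natCast, Nat.cast_mul] at hv
  obtain ⟨l, hl⟩ : ∃ l : ι → ZMod (q ^ n), ∀ i, l i = ∑ m, (x i m : ZMod (q ^ n)) *
      (v * lam (π (((PadicInt.mkUnits (hφ m) : ℤ_[q]ˣ) : ℤ_[q]) ^ (q - 1)))) +
      -(v * lam (π (((PadicInt.mkUnits hρ : ℤ_[q]ˣ) : ℤ_[q]) ^ (q - 1)))) := ⟨_, fun _ => rfl⟩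
  have hex : ∀ i ∈ I, ex (2 * n) (fun k => π (c0 k)) (l i) = π (R i) := by
    intro i hi
    rw [← hlam _ (hdv _ (hR i hi).2), hD.inj hD1 hD2 hp]
    have h1 : R i ^ e * PadicInt.mkUnits hρ =
        PadicInt.mkUnits hg ^ k i * ∏ m, PadicInt.mkUnits (hφ m) ^ x i m := by
      apply hjinj
      simp only [map_mul, map_pow, map_zpow, map_prod]
      simp only [hj, PadicInt.mkUnits_eq, (hR i hi).1]
      exact hrel i hi
    have h2 := congrArg (fun u => (Lam u).toAdd) h1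
    simp only [map_mul, map_pow, map_zpow, map_prod, hG, one_zpow, one_mul, toAdd_mul, toAdd_pow,
      toAdd_prod, toAdd_zpow, nsmul_eq_mul, zsmul_eq_mul] at h2
    rw [hLam (R i), map_pow, hlgpow _ (hdv _ (hR i hi).2)] at h2
    have h3 : (q : ZMod (q ^ n)) * ∑ m, (x i m : ZMod (q ^ n)) *
        (v * lam (π (((PadicInt.mkUnits (hφ m) : ℤ_[q]ˣ) : ℤ_[q]) ^ (q - 1)))) =
        v * ∑ m, (x i m : ZMod (q ^ n)) * (Lam (PadicInt.mkUnits (hφ m))).toAdd := by
      rw [mul_sum, mul_sum]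
      exact sum_congr rfl fun m _ => by rw [hLam]; ring
    rw [hl, mul_add, h3, ← h2, hLam]
    linear_combination (q * lam (π (R i))) * hv
  have hnn : n' ≤ n := by omega
  have hf : ∀ w, ZMod.castHom (pow_dvd_pow q hnn) (ZMod (q ^ n')) (π w) =
      PadicInt.toZModPow n' w := fun w =>
    RingHom.congr_fun (PadicInt.zmod_cast_comp_toZModPow n' n hnn) w
  have hmain := vanish2 (ZMod.castHom (pow_dvd_pow q hnn) (ZMod (q ^ n'))) (t := t) hD I
    (fun i => (a i : ZMod (q ^ n))) l Z _ hZ (by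
      intro k hk
      have h := map_dvd (ZMod.castHom (pow_dvd_pow q hnn) (ZMod (q ^ n'))) (hcd n' k (by omega))
      rwa [map_pow, map_natCast, ← Nat.cast_pow, ZMod.natCast_self, zero_dvd_iff] at h) (by
      intro y hy
      obtain ⟨m, rfl⟩ := ZMod.intCast_surjective y
      rw [← Int.cast_pow, ← Int.cast_mul, ZMod.intCast_zmod_eq_zero_iff_dvd, mul_pow, ← pow_mul,
        mul_right_comm, Nat.cast_pow] at hy
      have h1 : IsCoprime ((q : ℤ) ^ n) (P ^ (2 * t)) :=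
        ((Nat.prime_iff_prime_int.1 hqp).coprime_iff_not_dvd.2 hP).pow
      have h2 := (pow_dvd_pow (q : ℤ) (show ω * (2 * t) + n' ≤ n by
        rw [mul_comm]; omega)).trans (h1.dvd_of_dvd_mul_right hy)
      rw [pow_add, mul_dvd_mul_iff_left (pow_ne_zero _ (Nat.cast_ne_zero.2 hqp.ne_zero))] at h2
      rw [map_intCast, ZMod.intCast_zmod_eq_zero_iff_dvd, Nat.cast_pow]
      exact h2) (by
      intro z hz s hs
      have h1 := moments I (fun i => (a i : ZMod (q ^ n)) * π (R i) ^ z) l x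
        _ _ t (fun i _ => hl i) (by
          intro τ hτ
          have h2 : ∑ i ∈ I, ((a i * mon (x i) τ : ℤ) : ℤ_[q]) * (R i : ℤ_[q]) ^ z = 0 := by
            apply Subtype.ext
            have h3 := hvan z hz τ hτ
            rw [PadicInt.coe_zero, ← h3]
            change (PadicInt.Coe.ringHom (p := q)) _ = _
            rw [map_sum]
            refine Finset.sum_congr rfl fun i hi => ?_
            rw [map_mul, map_pow, map_intCast, ← (hR i hi).1]
            rfl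
          have h4 := congrArg π h2
          rw [map_sum, map_zero] at h4
          rw [← h4]
          refine Finset.sum_congr rfl fun i _ => ?_
          rw [map_mul, map_pow, map_intCast, Int.cast_mul, mon]
          ring) s 0 (by simpa using hs)
      rw [← h1]
      refine Finset.sum_congr rfl fun i hi => ?_
      rw [hex i hi]
      simp only [Multiset.map_zero, Multiset.prod_zero, Int.cast_one]
      ring) z
  have h6 : ∑ i ∈ I, (a i : ℚ_[q]) * r i ^ z =
      ((∑ i ∈ I, (a i : ℤ_[q]) * (R i : ℤ_[q]) ^ z : ℤ_[q]) : ℚ_[q]) := by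
    change _ = (PadicInt.Coe.ringHom (p := q)) _
    rw [map_sum]
    refine Finset.sum_congr rfl fun i hi => ?_
    rw [map_mul, map_pow, map_intCast, ← (hR i hi).1]
    rfl
  rw [h6, norm_le_iff, ← hf, ← hmain, map_sum π]
  congr 1
  refine Finset.sum_congr rfl fun i hi => ?_
  rw [map_mul, map_pow, map_intCast, hex i hi]

end Pool.Agent.Lib.MP_de9007_nt.PU
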