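import Pool.Agent.Lib.MP_de9007_nt.PS.Core
import Pool.Agent.Lib.MP_de9007_nt.PU.Step2
import Pool.Agent.Lib.MP_de9007_nt.PU.FM2

/-! The contradiction for admissible parameters, for arbitrary height. -/

namespace Pool.Agent.Lib.MP_de9007_nt.PU

open NumberField Pool.Agent.Lib.MP_de9007_nt.PS

variable {L : Type} [Field L] [NumberField L] {q : ℕ} [hq : Fact q.Prime]

theorem core2U (hBX : BX) (hMU : MU) (hSG : SG) (hLV : LV) (hKD : KD)
    [IsTotallyReal L] (ψ : L →+* ℚ_[q]) (q5 : 5 ≤ q) {d c : ℕ} (hd : Module.finrank ℚ L = d)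
    (hc : (discr L).natAbs ≤ 2 ^ (c * d)) {a b : ℤ} {h : ℕ} (hab : a.natAbs ≠ b.natAbs)
    (h1 : |a| ≤ 2 ^ h) (h2 : |b| ≤ 2 ^ h) (qa : ¬ (q : ℤ) ∣ a) (qb : ¬ (q : ℤ) ∣ b)
    {δ J J₀ h' S m N G : ℕ} (δ0 : 0 < δ) (hS : 0 < S)
    (hJ : J = h' + J₀) (J0 : 0 < J) (p1 : 2 * h ≤ 2 ^ h')
    (p2 : m + (c + 1) * d ≤ δ * 2 ^ J)
    (hN : N = 2 * d * (S * (d - 1 + 2 * (d + 1) * 2 ^ J).choose (2 * (d + 1) * 2 ^ J)))
    (hG : G = 2 ^ ((δ + 1) * 2 ^ J))
    (p3 : d * 2 ^ ((3 * c + 5) * d) * (q * N) ≤ 2 ^ J₀ * m ^ (d - 1))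
    (p4 : 2 * N ^ 2 * ((6 * ((30 * d) ^ d * δ)) ^ (2 * (d + 1) * 2 ^ J)) ^ 2 ≤
      G ^ (2 * S))
    (p5 : (2 * 2 ^ δ + 1) ^ d * (2 * d + 1) ≤ 2 ^ J * S)
    (p7 : G ^ (16 * d) < q ^ 2 ^ J) :
    ¬ (q : ℤ) ^ (2 ^ (J + d) * S) ∣ a ^ (q - 1) - b ^ (q - 1) := by
  classical
  subst hd
  intro hdiv
  have ha : a ≠ 0 := by rintro rfl; simp at qa
  have hb : b ≠ 0 := by rintro rfl; simp at qb
  have d0 : 0 < Module.finrank ℚ L := Module.finrank_pos
  have N0 : 0 < N := by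
    have := Nat.choose_pos (Nat.le_add_left (2 * (Module.finrank ℚ L + 1) * 2 ^ J)
      (Module.finrank ℚ L - 1))
    rw [hN]; positivity
  obtain ⟨p, hp, ν0, ν1⟩ := exists_val ha hb hab h1 h2
  have : Fact p.Prime := ⟨hp⟩
  obtain ⟨g, hg⟩ : ∃ g : ℚ, g = (a : ℚ) / b := ⟨_, rfl⟩
  rw [← hg] at ν0 ν1
  have g0 : g ≠ 0 := by rintro rfl; simp at ν0
  have gψ : ψ (g : L) = (a : ℚ_[q]) / b := by rw [map_ratCast, hg]; simp
  have g1 : ‖ψ (g : L)‖ = 1 := by rw [gψ, norm_div, norm_int_one qa, norm_int_one qb, div_one]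
  obtain ⟨E, E1, E2, E3⟩ := hMU L c m hc
  have n1 : ∀ z : ℕ × (𝓞 L)ˣ, ‖ψ ((g : L) ^ z.1 * (z.2 : L))‖ = 1 := fun z => by
    rw [map_mul, map_pow, norm_mul, norm_pow, g1, norm_unit, one_pow, one_mul]
  choose res r1 r2 using fun z => exists_res (n1 z)
  obtain ⟨y, -, hy⟩ := Finset.exists_le_card_fiber_of_mul_le_card_of_maps_to
    (s := Finset.range (2 ^ J₀) ×ˢ E) (t := Finset.range q) (f := res) (n := N)
    (fun z _ => Finset.mem_range.2 (r1 z)) ⟨0, Finset.mem_range.2 hq.out.pos⟩ (by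
      rw [Finset.card_product, Finset.card_range, Finset.card_range]
      refine Nat.le_of_mul_le_mul_left (p3.trans ?_) (by positivity)
      rw [mul_left_comm]
      exact Nat.mul_le_mul_left _ E2)
  obtain ⟨A, A1, A2⟩ := Finset.exists_subset_card_eq hy
  have A3 : ∀ i : A, i.1.1 < 2 ^ J₀ ∧ i.1.2 ∈ E ∧ res i.1 = y := fun i => by
    simpa [and_assoc] using A1 i.2
  have cA : Fintype.card A = N := by rw [Fintype.card_coe, A2]
  have E4 : ∀ x ∈ E, ∀ y ∈ E, ∀ σ : L →+* ℂ,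
      ‖σ ((x * y⁻¹ : (𝓞 L)ˣ) : 𝓞 L)‖ ≤ 2 ^ (δ * 2 ^ J) := fun x hx y hy σ =>
    (E3 x hx y hy σ).trans (pow_le_pow_right₀ one_le_two p2)
  obtain ⟨w, x, φ, n, D2, D3, D4⟩ := FM2 hBX L A (fun i => i.1.2) (δ * 2 ^ J)
    (fun i σ => by simpa using E4 _ (A3 i).2.1 1 E1 σ)
    (fun i σ => by simpa using E4 1 E1 _ (A3 i).2.1 σ)
  obtain ⟨B, B1, B2⟩ := exists_BB w (K := (30 * Module.finrank ℚ L) ^ Module.finrank ℚ L * δ)
    (T := 2 ^ J) (M := 2 * (Module.finrank ℚ L + 1) * 2 ^ J) (by positivity)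
    (fun i a => by rw [mul_assoc]; exact D2 i a) (by
      rw [Fintype.card_fin, mul_comm]
      exact Nat.mul_le_mul_right _ (by omega))
  obtain ⟨D, hD⟩ : ∃ D, D = (6 * ((30 * Module.finrank ℚ L) ^ Module.finrank ℚ L * δ)) ^
    (2 * (Module.finrank ℚ L + 1) * 2 ^ J) := ⟨_, rfl⟩
  have D0 : 0 < D := by rw [hD]; positivity
  rw [← hD] at B2 p4
  obtain ⟨γ, hγ⟩ : ∃ γ : A → L, γ = fun i => (g : L) ^ i.1.1 * (i.1.2 : L) := ⟨_, rfl⟩
  have inj : Function.Injective γ := by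
    intro i j e
    rw [hγ] at e
    have e1 := congrArg (fun y => padicValRat p (Algebra.norm ℚ y)) e
    simp only [val_norm p g0] at e1
    have e2 : i.1.1 = j.1.1 := by
      exact_mod_cast mul_right_cancel₀ (Nat.cast_ne_zero.2 d0.ne') (mul_right_cancel₀ ν0 e1)
    simp only [e2] at e
    exact Subtype.ext (Prod.ext e2 (Units.coe_injective L
      (mul_left_cancel₀ (pow_ne_zero _ (Rat.cast_ne_zero.2 g0)) e)))
  have b1 : (2 : ℤ) ^ (2 * h * 2 ^ J₀) ≤ 2 ^ 2 ^ J := by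
    refine pow_le_pow_right₀ one_le_two ?_
    rw [hJ, pow_add]
    exact Nat.mul_le_mul_right _ p1
  have Dn0 : (a * b) ^ 2 ^ J₀ ≠ 0 := pow_ne_zero _ (mul_ne_zero ha hb)
  have Dn1 : |(a * b) ^ 2 ^ J₀| ≤ G := by
    rw [abs_pow, abs_mul, hG]
    push_cast
    refine le_trans ?_ (b1.trans (pow_le_pow_right₀ one_le_two (by nlinarith [Nat.zero_le (δ * 2 ^ J)])))
    rw [pow_mul, two_mul, pow_add]
    gcongr
  have key : ∀ i j, IsIntegral ℤ ((((a * b) ^ 2 ^ J₀ : ℤ) : L) * (γ i / γ j)) ∧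
      ∀ σ : L →+* ℂ, ‖σ ((((a * b) ^ 2 ^ J₀ : ℤ) : L) * (γ i / γ j))‖ ≤ G := by
    intro i j
    obtain ⟨z, z1, z2⟩ := den (L := L) ha hb h1 h2 (A3 i).1.le (A3 j).1.le
    rw [hγ, hg]
    simp only
    rw [z2, ← coe_div]
    refine ⟨IsIntegral.mul ?_ (RingOfIntegers.isIntegral_coe _), fun σ => ?_⟩
    · rw [← eq_intCast (algebraMap ℤ L)]; exact isIntegral_algebraMap
    · rw [map_mul, norm_mul, map_intCast, Complex.norm_intCast, hG, add_mul, one_mul, pow_add,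
        mul_comm]
      push_cast
      exact mul_le_mul (E4 _ (A3 i).2.1 _ (A3 j).2.1 σ) (by exact_mod_cast z1.trans b1)
        (abs_nonneg _) (by positivity)
  obtain ⟨i₀⟩ : Nonempty A := Fintype.card_pos_iff.1 (cA ▸ N0)
  obtain ⟨cf, c0, c1, c2⟩ := siegel2 hSG (fun i => γ i / γ i₀) Dn0 Dn1 (fun i => (key i i₀).1)
    (fun i => (key i i₀).2) B1 D0 B2 (S := S)
    (cA ▸ N0) (by rw [cA, hN, Fintype.card_fin])
  have nγ : ∀ i, ‖ψ (γ i)‖ = 1 := fun i => by rw [hγ]; exact n1 i.1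
  have H : Dat2 ψ γ cf (fun i => i.1.1) w x B ((g : L) ^ 2) (fun m => (φ m : L) ^ 2)
      ((a * b) ^ 2 ^ J₀) G J S := by
    refine ⟨q5, by rw [Fintype.card_fin]; omega, hS, Dn0, Dn1, fun i j => (key i j).1,
      fun i j => (key i j).2, ⟨n, D4⟩, B1, fun i => ?_, by rw [map_pow, norm_pow, g1, one_pow],
      fun m => by rw [map_pow, norm_pow, norm_unit, one_pow], nγ, ?_, fun I τ hτ => ?_, p7⟩
    · let χ : (𝓞 L)ˣ →* Lˣ := Units.map (algebraMap (𝓞 L) L : 𝓞 L →* L)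
      have e := congrArg (fun z => ((χ z : Lˣ) : L)) (D3 i)
      simp only [map_pow, map_prod, map_zpow, Units.val_pow_eq_pow_val, Units.coe_prod,
        Units.val_zpow_eq_zpow_val] at e
      rw [hγ]
      simp only [mul_pow, zpow_natCast]
      rw [← pow_mul, ← pow_mul, mul_comm 2]
      congr 1
      refine e.trans ?_
      rw [← Finset.prod_pow]
      exact Finset.prod_congr rfl fun m _ => by
        rw [← zpow_natCast, ← zpow_mul, mul_comm, zpow_mul, zpow_natCast]; rfl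
    · rw [map_pow, gψ]
      exact small_sq qb hdiv
    · rw [cA] at c1
      have a1 : ∀ i ∈ I, |cf i * B i τ| ≤ 2 * N * (D * G ^ (2 * S) : ℕ) * D := by
        intro i _
        rw [abs_mul]
        exact mul_le_mul (c1 i) (B2 i τ hτ) (abs_nonneg _) (by positivity)
      refine (Finset.sum_le_card_nsmul _ _ _ a1).trans ?_
      have a2 : I.card ≤ N := cA ▸ I.card_le_univ
      rw [nsmul_eq_mul]
      norm_cast
      calc I.card * (2 * N * (D * G ^ (2 * S)) * D)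
          ≤ N * (2 * N * (D * G ^ (2 * S)) * D) := by gcongr
        _ = 2 * N ^ 2 * D ^ 2 * G ^ (2 * S) := by ring
        _ ≤ G ^ (2 * S) * G ^ (2 * S) := by gcongr
        _ = G ^ (4 * S) := by ring
  have S0 : St ψ γ cf w J S 0 := by
    refine ⟨Finset.univ, i₀, fun i => γ i / γ i₀, Finset.mem_univ _, fun i _ => ?_,
      fun i _ => ?_, ?_, by simpa using c2⟩
    · rw [pow_zero, pow_one, div_mul_cancel₀ _ (H.ne i₀)]
    · have a1 := r2 i.1
      have a2 := r2 i₀.1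
      rw [(A3 i).2.2] at a1
      rw [(A3 i₀).2.2, norm_sub_rev] at a2
      have a3 := (Padic.nonarchimedean _ _).trans_lt (max_lt a1 a2)
      rw [map_div₀, div_sub_one ((map_ne_zero ψ).2 (H.ne i₀)), norm_div, nγ, div_one, hγ]
      simpa using a3
    · obtain ⟨i, hi⟩ := Function.ne_iff.1 c0
      exact ⟨i, Finset.mem_univ _, hi⟩
  have SJ : ∀ j ≤ J, St ψ γ cf w J S j := by
    intro j hj
    induction j with
    | zero => exact S0
    | succ j ih => exact st_succ hLV hKD H hj (ih (by omega))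
  obtain ⟨I, i₁, u, I1, I2⟩ := st_card H inj J0 (SJ J le_rfl)
  subst hγ
  have := card_le hBX ν0 (fun i : A => i.1.1) (fun i => i.1.2) (J := J) (δ := δ) (fun i j => ?_)
    (fun i j => E4 _ (A3 i).2.1 _ (A3 j).2.1) inj I i₁ u I2
  · omega
  · have a1 := (A3 i).1
    have a2 := (A3 j).1
    have a3 : |(i.1.1 : ℤ) - j.1.1| ≤ (2 ^ J₀ : ℕ) := by rw [abs_le]; omega
    have a4 : (h : ℤ) ≤ (2 ^ h' : ℕ) := by omega
    rw [hJ, pow_add, mul_comm]
    exact mul_le_mul (by exact_mod_cast ν1.trans a4) (by exact_mod_cast a3) (abs_nonneg _)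
      (by positivity)

end Pool.Agent.Lib.MP_de9007_nt.PU
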