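import Pool.Agent.Lib.MP_de9007_nt.PS.Main
import Pool.Agent.Lib.MP_de9007_nt.PU.Core2

/-! Choice of the parameters: a bound linear in the height. -/

namespace Pool.Agent.Lib.MP_de9007_nt.PU

open NumberField Pool.Agent.Lib.MP_de9007_nt.PS

theorem ar5 {c r s J u N δ : ℕ} (hδ : δ = 2 ^ (3 * c + 14)) (a2 : u ≤ 2 ^ s)
    (a6 : 16 * (r + 1) ≤ u) (a3 : 10 * s + 3 * c + 10 ≤ r + 1)
    (N1 : N ≤ 2 ^ (1 + 5 * s + (J + 6) * r)) :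
    2 * N ^ 2 * ((6 * ((30 * (r + 1)) ^ (r + 1) * δ)) ^ (2 * (r + 1 + 1) * 2 ^ (J + 1))) ^ 2 ≤
      (2 ^ ((δ + 1) * 2 ^ (J + 1))) ^ (2 * 2 ^ (4 * s)) := by
  have s1 : 1 ≤ s := by
    rcases s with _ | s
    · rw [pow_zero] at a2; omega
    · omega
  have b0 : 30 * (r + 1) ≤ 2 ^ (s + 1) := by rw [pow_succ]; omega
  have b1 : 6 * ((30 * (r + 1)) ^ (r + 1) * δ) ≤ 2 ^ (2 * (r + 1) ^ 2) :=
    calc _ ≤ 2 ^ 3 * ((2 ^ (s + 1)) ^ (r + 1) * 2 ^ (3 * c + 14)) := by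
          rw [hδ]
          gcongr
          norm_num
      _ ≤ _ := by
          rw [← pow_mul, ← pow_add, ← pow_add]
          refine Nat.pow_le_pow_right two_pos ?_
          have e1 : (s + 1) * (r + 1) ≤ (r + 1) * (r + 1) := Nat.mul_le_mul_right _ (by omega)
          have e2 : r + 1 ≤ (r + 1) * (r + 1) := Nat.le_mul_self _
          rw [sq]
          omega
  calc _ ≤ 2 * (2 ^ (1 + 5 * s + (J + 6) * r)) ^ 2 *
        ((2 ^ (2 * (r + 1) ^ 2)) ^ (2 * (r + 1 + 1) * 2 ^ (J + 1))) ^ 2 := by gcongr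
    _ ≤ _ := by
      have b4 : J + 1 < 2 ^ (J + 1) := Nat.lt_two_pow_self
      obtain ⟨P, hP⟩ : ∃ P, P = 2 ^ (J + 1) := ⟨_, rfl⟩
      have b2 : u ^ 4 ≤ 2 ^ (4 * s) := by
        rw [mul_comm, pow_mul]; gcongr
      rw [← hP] at b4 ⊢
      rw [← pow_mul, ← pow_mul, ← pow_mul, ← pow_mul, ← pow_succ', ← pow_add]
      refine Nat.pow_le_pow_right two_pos ?_
      obtain ⟨d, hd⟩ : ∃ d, d = r + 1 := ⟨_, rfl⟩
      rw [← hd] at a3 a6 ⊢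
      have b5 : (J + 6) * r ≤ 6 * P * d := Nat.mul_le_mul (by omega) (by omega)
      have b6 : d ≤ P * d := Nat.le_mul_of_pos_left _ (by omega)
      have b7 : d ≤ d ^ 3 := Nat.le_self_pow (by omega) _
      have b8 : d ^ 3 ≤ d ^ 4 := Nat.pow_le_pow_right (by omega) (by omega)
      have b9 : (16 * d) ^ 4 ≤ 2 ^ (4 * s) := (Nat.pow_le_pow_left a6 _).trans b2
      have c1 : P * d ≤ P * d ^ 4 := Nat.mul_le_mul_left _ (b7.trans b8)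
      have c2 : P * d ^ 3 ≤ P * d ^ 4 := Nat.mul_le_mul_left _ b8
      have c3 : P * d ^ 2 ≤ P * d ^ 4 :=
        Nat.mul_le_mul_left _ (Nat.pow_le_pow_right (by omega) (by omega))
      calc _ = (1 + 5 * s + (J + 6) * r) * 2 + 1 + (8 * (P * d ^ 3) + 8 * (P * d ^ 2)) := by ring
        _ ≤ 1 * P * (2 * (16 * d) ^ 4) := by
          rw [show 1 * P * (2 * (16 * d) ^ 4) = 131072 * (P * d ^ 4) by ring]
          rw [mul_assoc] at b5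
          omega
        _ ≤ _ := by gcongr; omega

theorem key2 {c d l s h h' q : ℕ} [Fact q.Prime] {L : Type} [Field L] [NumberField L]
    [IsTotallyReal L] (ψ : L →+* ℚ_[q]) (hd : Module.finrank ℚ L = d)
    (hc : (discr L).natAbs ≤ 2 ^ (c * d)) {a b : ℤ} (hab : a.natAbs ≠ b.natAbs)
    (h1 : |a| ≤ 2 ^ h) (h2 : |b| ≤ 2 ^ h) (qa : ¬ (q : ℤ) ∣ a) (qb : ¬ (q : ℤ) ∣ b)
    (p1 : 2 * h ≤ 2 ^ h') (a1 : 32 * (2 ^ (3 * c + 14) + 1) * d ≤ l + 1) (a2 : l + 1 ≤ 2 ^ s)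
    (a3 : 10 * s + 3 * c + 10 ≤ d) (a4 : 2 ^ l ≤ q) (a5 : q ≤ 2 ^ (l + 1)) {n : ℕ}
    (hn : (q : ℤ) ^ n ∣ a ^ (q - 1) - b ^ (q - 1)) : n * 2 ^ d ≤ 2 ^ h' * q := by
  obtain ⟨δ, hδ⟩ : ∃ δ, δ = 2 ^ (3 * c + 14) := ⟨_, rfl⟩
  have δ1 : 3 * c + 14 < δ := hδ ▸ Nat.lt_two_pow_self
  rw [← hδ] at a1
  have a6 : 16 * d ≤ l + 1 := le_trans (by nlinarith) a1
  obtain ⟨r, rfl⟩ : ∃ r, d = r + 1 := ⟨d - 1, by omega⟩
  obtain ⟨J₀, hJ₀⟩ : ∃ J₀, J₀ + 3 * r = l + 6 * s + 3 * c + 7 := ⟨l + 6 * s + 3 * c + 7 - 3 * r, by omega⟩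
  obtain ⟨J, hJ⟩ : ∃ J, J + 1 = h' + J₀ := ⟨h' + J₀ - 1, by omega⟩
  have q5 : 5 ≤ q :=
    le_trans (by norm_num) ((Nat.pow_le_pow_right two_pos (show 3 ≤ l by omega)).trans a4)
  have d1 : r + 1 ≤ 2 ^ s := by omega
  have W : 2 ^ (J + 1 + (r + 1)) * 2 ^ (4 * s) * 2 ^ (r + 1) ≤ 2 ^ h' * q := by
    refine le_trans ?_ (Nat.mul_le_mul_left _ a4)
    rw [← pow_add, ← pow_add, ← pow_add]
    exact Nat.pow_le_pow_right two_pos (by omega)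
  obtain ⟨N, hN⟩ : ∃ N, N = 2 * (r + 1) * (2 ^ (4 * s) *
    (r + 1 - 1 + 2 * (r + 1 + 1) * 2 ^ (J + 1)).choose (2 * (r + 1 + 1) * 2 ^ (J + 1))) := ⟨_, rfl⟩
  have N1 : N ≤ 2 ^ (1 + 5 * s + (J + 6) * r) := by
    have b1 := choose_le (r := r) (m := 2 * (r + 1 + 1) * 2 ^ (J + 1)) (M := 2 ^ (J + 4))
      (le_trans (by norm_num) (Nat.pow_le_pow_right two_pos (by omega : 2 ≤ J + 4))) (by
        rw [show r * 2 ^ (J + 4) = 8 * r * 2 ^ (J + 1) by ring]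
        exact Nat.mul_le_mul_right _ (by omega))
    rw [hN, Nat.add_sub_cancel]
    calc _ ≤ 2 * 2 ^ s * (2 ^ (4 * s) * (4 * 2 ^ (J + 4)) ^ r) := by gcongr
      _ = _ := by rw [show 4 * 2 ^ (J + 4) = 2 ^ (J + 6) by ring, ← pow_mul]; ring
  have := core2U BX_thm MU_thm SG_thm LV_thm KD_thm ψ q5 hd hc hab h1 h2 qa qb
    (δ := δ) (J := J + 1) (S := 2 ^ (4 * s)) (m := δ * 2 ^ J) (by omega) (by positivity) hJ
    (by omega) p1 ?_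
    hN rfl ?_ ?_ ?_ ?_
  · refine le_trans (Nat.mul_le_mul_right _ (le_of_not_ge fun hle => this ?_)) W
    exact (pow_dvd_pow _ hle).trans hn
  · have b1 : r + 1 ≤ 2 ^ J := le_trans (by omega) Nat.lt_two_pow_self.le
    have b2 : (c + 1) * (r + 1) ≤ δ * 2 ^ J := Nat.mul_le_mul (by omega) b1
    rw [pow_succ]
    linarith
  · calc _ ≤ 2 ^ s * 2 ^ ((3 * c + 5) * (r + 1)) * (2 ^ (l + 1) * 2 ^ (1 + 5 * s + (J + 6) * r)) := by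
          gcongr
      _ = _ := by
        rw [hδ, Nat.add_sub_cancel, ← pow_add, ← pow_add, ← pow_add, ← pow_add, ← pow_mul, ← pow_add]
        congr 1
        nlinarith
  · exact ar5 hδ a2 a6 (by omega) N1
  · have b1 : 2 * 2 ^ δ + 1 ≤ 2 ^ (δ + 2) := by
      have := Nat.one_le_two_pow (n := δ)
      rw [pow_add]; omega
    have b2 : 2 * (r + 1) + 1 ≤ 2 ^ (4 * s) :=
      le_trans (by omega) (a2.trans (Nat.pow_le_pow_right two_pos (by omega)))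
    refine Nat.mul_le_mul ((Nat.pow_le_pow_left b1 _).trans ?_) b2
    rw [← pow_mul]
    refine Nat.pow_le_pow_right two_pos ?_
    have : l + 1 ≤ J + 1 + 3 * (r + 1) := by omega
    nlinarith
  · rw [← pow_mul, mul_right_comm, pow_mul]
    refine Nat.pow_lt_pow_left (lt_of_lt_of_le (Nat.pow_lt_pow_right one_lt_two ?_) a4)
      (by positivity)
    nlinarith

/-- The uniform bound. -/
theorem unif2 : ∃ M Q : ℕ, 0 < M ∧ ∀ (a b : ℤ) (h q n : ℕ), q.Prime → Q ≤ q →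
    a.natAbs ≠ b.natAbs → |a| ≤ 2 ^ h → |b| ≤ 2 ^ h → ¬ (q : ℤ) ∣ a → ¬ (q : ℤ) ∣ b → 0 < h →
    (q : ℤ) ^ n ∣ a ^ (q - 1) - b ^ (q - 1) → n ^ M * q ≤ (4 * h * q) ^ M := by
  obtain ⟨c, hc⟩ := TW_thm
  obtain ⟨E, hE⟩ : ∃ E, E = 32 * (2 ^ (3 * c + 14) + 1) := ⟨_, rfl⟩
  have E0 : 0 < E := by rw [hE]; positivity
  obtain ⟨K, hK⟩ : ∃ K, K = 4 * E * (3 * c + 22) := ⟨_, rfl⟩
  refine ⟨4 * E, c + 1 + 2 ^ 2 ^ (K + 6), by omega, fun a b h q n hq hQ hab h1 h2 qa qb hh hn => ?_⟩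
  have : Fact q.Prime := ⟨hq⟩
  obtain ⟨l, hl⟩ : ∃ l, l = Nat.log 2 q := ⟨_, rfl⟩
  have l1 : 2 ^ l ≤ q := hl ▸ Nat.pow_log_le_self 2 hq.ne_zero
  have l2 : q < 2 ^ (l + 1) := hl ▸ Nat.lt_pow_succ_log_self one_lt_two q
  have l3 : 2 ^ (K + 6) ≤ l := hl ▸ Nat.le_log_of_pow_le one_lt_two (le_trans (Nat.le_add_left _ _) hQ)
  obtain ⟨s, hs⟩ : ∃ s, s = Nat.log 2 (l + 1) + 1 := ⟨_, rfl⟩
  have s1 : l + 1 < 2 ^ s := hs ▸ Nat.lt_pow_succ_log_self one_lt_two _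
  have s2 : K * s ≤ l + 1 := hs ▸ log_small K (l + 1) (by omega)
  have s3 : 1 ≤ s := by omega
  have e1 : 2 ≤ (l + 1) / E := by
    rw [Nat.le_div_iff_mul_le E0]
    refine le_trans ?_ s2
    rw [hK]
    nlinarith [Nat.zero_le (E * c * s), Nat.mul_le_mul_left E s3]
  obtain ⟨j, hj⟩ : ∃ j, Nat.log 2 ((l + 1) / E) = j + 1 :=
    ⟨Nat.log 2 ((l + 1) / E) - 1, by have := Nat.log_pos one_lt_two e1; omega⟩
  obtain ⟨d, hd⟩ : ∃ d, d = 2 ^ (j + 1) := ⟨_, rfl⟩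
  have d1 : d * E ≤ l + 1 := by
    rw [← Nat.le_div_iff_mul_le E0, hd, ← hj]
    exact Nat.pow_log_le_self 2 (by omega)
  have d2 : l + 1 < 2 * d * E := by
    rw [← Nat.div_lt_iff_lt_mul E0, hd, ← pow_succ', ← hj]
    exact Nat.lt_pow_succ_log_self one_lt_two _
  have d3 : 2 * ((3 * c + 22) * s) < d := by
    refine lt_of_mul_lt_mul_right (a := 2 * E) ?_ (Nat.zero_le _)
    rw [hK] at s2
    nlinarith
  have q3 : q ≤ (2 ^ d) ^ (2 * E) := by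
    rw [← pow_mul]
    exact l2.le.trans (Nat.pow_le_pow_right two_pos (by nlinarith))
  obtain ⟨L, _, _, hL, L1, L2, ⟨ψ⟩⟩ := hc q (lt_of_lt_of_le (Nat.lt_succ_self c) (le_trans (Nat.le_add_right _ _) hQ)) j
  rw [← hd] at L1
  have h3 := key2 (c := c) (l := l) (s := s) (h' := Nat.log 2 h + 2) ψ L1 (L1 ▸ L2) hab h1 h2 qa qb
    (by have := Nat.lt_pow_succ_log_self one_lt_two h; rw [pow_succ]; omega)
    (by rw [← hE, mul_comm]; exact d1) s1.le (by nlinarith) l1 l2.le hn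
  have h4 : 2 ^ (Nat.log 2 h + 2) ≤ 4 * h := by
    have := Nat.pow_log_le_self 2 hh.ne'
    rw [pow_add]; omega
  calc n ^ (4 * E) * q ≤ n ^ (4 * E) * (2 ^ d) ^ (4 * E) :=
        Nat.mul_le_mul_left _ (q3.trans (Nat.pow_le_pow_right (by positivity) (by omega)))
    _ ≤ _ := by rw [← mul_pow]; exact Nat.pow_le_pow_left (h3.trans (Nat.mul_le_mul_right _ h4)) _

theorem VB2 : ∃ η : ℝ, 0 < η ∧ ∃ Q : ℕ, ∀ (a b : ℤ) (q n : ℕ), 1 < a → |b| < a → q.Prime → Q ≤ q →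
    ¬ (q : ℤ) ∣ a → ¬ (q : ℤ) ∣ b → (q : ℤ) ^ n ∣ a ^ (q - 1) - b ^ (q - 1) →
    (n : ℝ) ≤ 12 * Real.log a * (q : ℝ) ^ (1 - η) := by
  obtain ⟨M, Q, hM, H⟩ := unif2
  refine ⟨(M : ℝ)⁻¹, by positivity, Q, fun a b q n ha hb hq hQ qa qb hn => ?_⟩
  obtain ⟨A, rfl⟩ : ∃ A : ℕ, a = A := ⟨a.toNat, by omega⟩
  have A2 : 2 ≤ A := by omega
  obtain ⟨t, ht⟩ : ∃ t, t = Nat.log 2 A := ⟨_, rfl⟩
  have t1 : 2 ^ t ≤ A := ht ▸ Nat.pow_log_le_self 2 (by omega)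
  have t2 : A < 2 ^ (t + 1) := ht ▸ Nat.lt_pow_succ_log_self one_lt_two A
  have t3 : 0 < t := ht ▸ Nat.log_pos one_lt_two A2
  have t4 : (A : ℤ) ≤ 2 ^ (t + 1) := by exact_mod_cast t2.le
  have h1 := H A b (t + 1) q n hq hQ (by rw [Int.abs_eq_natAbs] at hb; omega)
    (by rwa [Nat.abs_cast]) (hb.le.trans t4) qa qb (by omega) hn
  have q0 : (0 : ℝ) < q := by exact_mod_cast hq.pos
  have M0 : (M : ℝ) ≠ 0 := by positivity
  have h2 : (n : ℝ) ≤ 4 * (t + 1) * (q : ℝ) ^ (1 - (M : ℝ)⁻¹) := by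
    refine le_of_pow_le_pow_left₀ hM.ne' (by positivity) ?_
    rw [mul_pow, ← Real.rpow_natCast ((q : ℝ) ^ _), ← Real.rpow_mul q0.le, sub_mul, one_mul,
      inv_mul_cancel₀ M0, Real.rpow_sub q0, Real.rpow_one, ← mul_div_assoc, le_div_iff₀ q0,
      Real.rpow_natCast, ← mul_pow]
    exact_mod_cast h1
  refine h2.trans (mul_le_mul_of_nonneg_right ?_ (by positivity))
  have h3 : t * Real.log 2 ≤ Real.log A := by
    rw [← Real.log_pow]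
    exact Real.log_le_log (by positivity) (by exact_mod_cast t1)
  have h4 := Real.log_two_gt_d9
  have h5 : (1 : ℝ) ≤ t := by exact_mod_cast t3
  rw [Int.cast_natCast]
  nlinarith

end Pool.Agent.Lib.MP_de9007_nt.PU
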