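import Pool.Agent.Lib.MP_de9007_nt.PS.CY
import Pool.Agent.Lib.MP_de9007_nt.PU.Main2

/-! Large primitive prime divisors from an absolute index on. -/

namespace Pool.Agent.Lib.MP_de9007_nt.PU

open Finset Filter Pool.Agent.Lib.MP_de9007_nt.PS Pool.Agent.Lib.MP_de9007_nt.PS.CYAux

theorem fin2 {η : ℝ} (h0 : 0 < η) (h1 : η ≤ 1) : ∀ᶠ n : ℕ in atTop,
    2 * (#n.divisors : ℝ) + 26 * ((n : ℝ) ^ (1 - η / 2) * Real.log n) ≤ (n : ℝ) ^ (1 - η / 4) := by
  have hδ : 0 < η / 8 := by positivity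
  obtain ⟨C, hC, hτ⟩ := tau hδ
  have ht := ((tendsto_rpow_atTop hδ).comp
    tendsto_natCast_atTop_atTop).eventually_ge_atTop (2 * C + 26 / (η / 8))
  filter_upwards [ht, eventually_gt_atTop 0] with n hK hn
  have hn1 : (1 : ℝ) ≤ n := by exact_mod_cast hn
  have hn0 : (0 : ℝ) < n := by linarith
  have e2 := hτ n hn
  have e3 : Real.log n ≤ (n : ℝ) ^ (η / 8) / (η / 8) := Real.log_le_rpow_div hn0.le hδ
  have e5 : (1 : ℝ) ≤ (n : ℝ) ^ (1 - η / 2) := Real.one_le_rpow hn1 (by linarith)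
  have e6 : (n : ℝ) ^ (η / 8) * ((n : ℝ) ^ (η / 8) * (n : ℝ) ^ (1 - η / 2)) =
      (n : ℝ) ^ (1 - η / 4) := by
    rw [← Real.rpow_add hn0, ← Real.rpow_add hn0]; congr 1; ring
  simp only [Function.comp] at hK
  rw [← e6]
  generalize (n : ℝ) ^ (1 - η / 2) = y at e5 ⊢
  have x0 : 0 ≤ (n : ℝ) ^ (η / 8) := by positivity
  generalize (n : ℝ) ^ (η / 8) = x at e2 e3 hK x0 ⊢
  have g1 : C * x ≤ C * x * y := le_mul_of_one_le_right (by positivity) e5
  have g2 : y * Real.log n ≤ y * (x / (η / 8)) := mul_le_mul_of_nonneg_left e3 (by linarith)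
  have g3 := mul_le_mul_of_nonneg_right hK (show 0 ≤ x * y by positivity)
  have g4 : (2 * C + 26 / (η / 8)) * (x * y) = 2 * (C * x * y) + 26 * (y * (x / (η / 8))) := by ring
  linarith

theorem PD2 : ∃ η : ℝ, 0 < η ∧ ∃ N : ℕ, ∀ a b : ℤ, IsCoprime a b → 1 < a → -a < b → b < a →
    ∀ n : ℕ, N ≤ n → ∃ d : ℕ, 1 < d ∧ (d : ℤ) ∣ a ^ n - b ^ n ∧
      (a : ℝ) ^ ((n.totient : ℝ) - (n : ℝ) ^ (1 - η)) ≤ d ∧ ∀ q : ℕ, q.Prime → q ∣ d →
        (n : ℝ) ^ (1 + η) < q ∧ ∀ m : ℕ, 0 < m → m < n → ¬ (q : ℤ) ∣ a ^ m - b ^ m := by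
  classical
  obtain ⟨η₀, hη₀, Q, hQ⟩ := VB2
  obtain ⟨η, h0, h1, h2⟩ : ∃ η : ℝ, 0 < η ∧ η ≤ 1 ∧ η ≤ η₀ :=
    ⟨min η₀ 1, lt_min hη₀ one_pos, min_le_right _ _, min_le_left _ _⟩
  obtain ⟨N, hN⟩ := eventually_atTop.1 (((fin (half_pos h0) (by linarith) one_pos le_rfl).and
    (fin2 h0 h1)).and ((eventually_gt_atTop 2).and (eventually_ge_atTop Q)))
  refine ⟨η / 4, by positivity, N, fun a b hab ha hb1 hb2 n hn => ?_⟩
  have hb : |b| < a := abs_lt.2 ⟨hb1, hb2⟩
  have hb0 : b ≠ 0 := by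
    rintro rfl
    rcases Int.isUnit_iff.1 (isCoprime_zero_right.1 hab) with h | h <;> omega
  obtain ⟨P, hP⟩ := exP a b hb0
  have ha' : (2 : ℝ) ≤ a := by exact_mod_cast ha
  have la : Real.log 2 ≤ Real.log a := Real.log_le_log two_pos ha'
  have l2 := Real.log_two_gt_d9
  have la0 : 0 ≤ Real.log a := by linarith
  obtain ⟨⟨hF, hF2⟩, hn2, hnQ⟩ := hN n hn
  have hn0 : 0 < n := by omega
  have hn1 : (1 : ℝ) ≤ n := by exact_mod_cast hn0
  have hnr : (0 : ℝ) < n := by linarith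
  have hd := P_dvd hP hn0
  have hM : (P n).natAbs ≠ 0 := Int.natAbs_ne_zero.2 (ne_zero_of_dvd_ne_zero (D_ne ha hb hn0) hd)
  set S : Finset ℕ := (Icc 1 ⌊(n : ℝ) ^ (η / 4)⌋₊).image fun k => n * k + 1 with hS
  set W : ℝ := 12 * Real.log a * ((n : ℝ) ^ (1 + η / 4)) ^ (1 - η) * (2 * Real.log n) with hW
  have hl : 0 ≤ Real.log n := Real.log_nonneg hn1
  have hW0 : 0 ≤ W := by positivity
  obtain ⟨good, hgood⟩ : ∃ good : ℕ → Prop, ∀ q, good q ↔ ((n : ℝ) ^ (1 + η / 4) < q ∧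
      ∀ m : ℕ, 0 < m → m < n → ¬ (q : ℤ) ∣ a ^ m - b ^ m) := ⟨_, fun _ => Iff.rfl⟩
  have key : ∀ q ∈ (P n).natAbs.primeFactors, ((P n).natAbs.factorization q : ℝ) * Real.log q ≤
      (if good q then ((P n).natAbs.factorization q : ℝ) * Real.log q else 0) +
        (n.factorization q * Real.log q + if q ∈ S then W else 0) := by
    intro q hq
    by_cases hc : good q
    · rw [if_pos hc]
      refine le_add_of_nonneg_right (add_nonneg
        (mul_nonneg (Nat.cast_nonneg _) (Real.log_natCast_nonneg q)) ?_)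
      split_ifs
      exacts [hW0, le_rfl]
    rw [if_neg hc, zero_add]
    have hp := Nat.prime_of_mem_primeFactors hq
    have hq1 : (1 : ℝ) ≤ q := by exact_mod_cast hp.one_le
    have hlq : 0 ≤ Real.log q := Real.log_nonneg hq1
    have hv : (q : ℤ) ^ (P n).natAbs.factorization q ∣ P n := by
      rw [← Nat.cast_pow, Int.natCast_dvd]
      exact Nat.ordProj_dvd _ _
    have hqn : (q : ℤ) ∣ a ^ n - b ^ n :=
      (Int.natCast_dvd.2 (Nat.dvd_of_mem_primeFactors hq)).trans hd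
    by_cases hpr : ∀ m, 0 < m → m < n → ¬ (q : ℤ) ∣ a ^ m - b ^ m
    · have hY : (q : ℝ) ≤ (n : ℝ) ^ (1 + η / 4) :=
        not_lt.1 fun h => hc ((hgood q).2 ⟨h, hpr⟩)
      obtain ⟨k, hk⟩ := prim hab hp hn0 hqn hpr
      have h2q := hp.two_le
      have hk1 : 1 ≤ k := Nat.pos_of_ne_zero (by rintro rfl; omega)
      have hqk : q = n * k + 1 := by omega
      have hmem : q ∈ S := by
        refine mem_image.2 ⟨k, mem_Icc.2 ⟨hk1, Nat.le_floor ?_⟩, hqk.symm⟩
        rw [Real.rpow_add hnr, Real.rpow_one, hqk] at hY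
        push_cast at hY
        exact le_of_mul_le_mul_left (by linarith) hnr
      have hv2 := hQ a b q _ ha hb hp (by nlinarith) (not_dvd hab hp hn0 hqn).1
        (not_dvd hab hp hn0 hqn).2 (hv.trans (hd.trans (by
        rw [hk, pow_mul, pow_mul]; exact sub_dvd_pow_sub_pow _ _ k)))
      have hv3 : (q : ℝ) ^ (1 - η₀) ≤ ((n : ℝ) ^ (1 + η / 4)) ^ (1 - η) :=
        (Real.rpow_le_rpow_of_exponent_le hq1 (by linarith)).trans
          (Real.rpow_le_rpow (by positivity) hY (by linarith))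
      have hv4 : Real.log q ≤ 2 * Real.log n := by
        refine (Real.log_le_log (by linarith) hY).trans ?_
        rw [Real.log_rpow hnr]
        exact mul_le_mul_of_nonneg_right (by linarith) hl
      rw [if_pos hmem]
      exact le_add_of_nonneg_of_le (by positivity)
        (mul_le_mul (hv2.trans (mul_le_mul_of_nonneg_left hv3 (by positivity))) hv4 hlq
          (by positivity))
    · push Not at hpr
      obtain ⟨m, hm, hmn, hqm⟩ := hpr
      have h3 := (hp.pow_dvd_iff_le_factorization hn0.ne').1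
        (nonprim hab ha hb hP hp hn2 hm hmn hqn hqm hv)
      refine le_add_of_le_of_nonneg (mul_le_mul_of_nonneg_right (by exact_mod_cast h3) hlq) ?_
      split_ifs
      exacts [hW0, le_rfl]
  have s1 : Real.log (P n) = ∑ q ∈ (P n).natAbs.primeFactors,
      ((P n).natAbs.factorization q : ℝ) * Real.log q := by
    rw [← Real.log_abs, ← Int.cast_abs, ← Nat.cast_natAbs, Real.log_nat_eq_sum_factorization]
    rfl
  have s2 : ∑ q ∈ (P n).natAbs.primeFactors, (n.factorization q : ℝ) * Real.log q ≤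
      Real.log n := by
    rw [Real.log_nat_eq_sum_factorization n, Finsupp.sum]
    rw [← sum_filter_ne_zero]
    refine sum_le_sum_of_subset_of_nonneg (fun q hq => ?_) fun q _ _ =>
      mul_nonneg (Nat.cast_nonneg _) (Real.log_natCast_nonneg q)
    exact Finsupp.mem_support_iff.2 fun h => (mem_filter.1 hq).2 (by rw [h]; simp)
  have s3 : ∑ q ∈ (P n).natAbs.primeFactors, (if q ∈ S then W else 0) ≤
      (n : ℝ) ^ (η / 4) * W := by
    rw [sum_ite_mem, sum_const, nsmul_eq_mul]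
    refine mul_le_mul_of_nonneg_right ?_ hW0
    have : #((P n).natAbs.primeFactors ∩ S) ≤ ⌊(n : ℝ) ^ (η / 4)⌋₊ :=
      (card_le_card inter_subset_right).trans (card_image_le.trans (by simp))
    exact (Nat.cast_le.2 this).trans (Nat.floor_le (by positivity))
  have s4 : (n : ℝ) ^ (η / 4) * W ≤
      12 * Real.log a * (2 * (n : ℝ) ^ (1 - η / 2) * Real.log n) := by
    have e : (n : ℝ) ^ (η / 4) * W = 12 * Real.log a *
        (2 * (n : ℝ) ^ (η / 4 + (1 + η / 4) * (1 - η)) * Real.log n) := by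
      rw [hW, ← Real.rpow_mul hnr.le, Real.rpow_add hnr (η / 4)]
      ring
    have : (n : ℝ) ^ (η / 4 + (1 + η / 4) * (1 - η)) ≤ (n : ℝ) ^ (1 - η / 2) :=
      Real.rpow_le_rpow_of_exponent_le hn1 (by nlinarith)
    rw [e]
    gcongr
  have s5 := sum_le_sum key
  rw [sum_add_distrib, sum_add_distrib, ← s1, ← sum_filter] at s5
  have s6 := P_low ha hb hP hn0
  rw [Real.log_mul two_ne_zero (by linarith)] at s6
  obtain ⟨d, hd'⟩ : ∃ d, d = ∏ q ∈ (P n).natAbs.primeFactors.filter good,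
    q ^ (P n).natAbs.factorization q := ⟨_, rfl⟩
  have d1 : d ∣ (P n).natAbs := by
    conv_rhs => rw [← Nat.prod_factorization_pow_eq_self hM, Finsupp.prod]
    rw [hd']
    exact prod_dvd_prod_of_subset _ _ _ (filter_subset _ _)
  have d0 : (0 : ℝ) < d := by exact_mod_cast Nat.pos_of_dvd_of_pos d1 (Nat.pos_of_ne_zero hM)
  have d2 : Real.log d = ∑ q ∈ (P n).natAbs.primeFactors.filter good,
      ((P n).natAbs.factorization q : ℝ) * Real.log q := by
    rw [hd', Nat.cast_prod, Real.log_prod fun q hq => by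
      have := (Nat.prime_of_mem_primeFactors (mem_filter.1 hq).1).pos
      positivity]
    exact sum_congr rfl fun q _ => by rw [Nat.cast_pow, Real.log_pow]
  have d3 : (a : ℝ) ^ ((n.totient : ℝ) - (n : ℝ) ^ (1 - η / 4)) ≤ d := by
    rw [Real.rpow_le_iff_le_log (by linarith) d0, d2]
    have s7 := mul_le_mul_of_nonneg_left hF2 la0
    have s8 : (#n.divisors : ℝ) * Real.log 2 ≤ #n.divisors * Real.log a :=
      mul_le_mul_of_nonneg_left la (Nat.cast_nonneg _)
    have e5 : (1 : ℝ) ≤ (n : ℝ) ^ (1 - η / 2) := Real.one_le_rpow hn1 (by linarith)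
    have s9 : 1 * Real.log n ≤ 2 * Real.log a * (n : ℝ) ^ (1 - η / 2) * Real.log n :=
      mul_le_mul_of_nonneg_right (one_le_mul_of_one_le_of_one_le (by linarith) e5) hl
    linarith
  refine ⟨d, ?_, (Int.natCast_dvd.2 d1).trans hd, d3, fun q hq hqd => (hgood q).1 ?_⟩
  · have e1 : Real.log 2 ≤ Real.log n :=
      Real.log_le_log two_pos (by exact_mod_cast hn2.le)
    have e2 : (0 : ℝ) < (n : ℝ) ^ (1 - η / 4) := by positivity
    rw [show η / 2 / 2 = η / 4 by ring, mul_one, mul_zero, sub_zero] at hF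
    have e3 : (0 : ℝ) < (n.totient : ℝ) - (n : ℝ) ^ (1 - η / 4) := by nlinarith
    exact_mod_cast (Real.one_lt_rpow (show (1 : ℝ) < a by linarith) e3).trans_le d3
  · rw [hd'] at hqd
    obtain ⟨p, hp, hqp⟩ := (Nat.prime_iff.1 hq).exists_mem_finset_dvd hqd
    rw [(Nat.prime_dvd_prime_iff_eq hq (Nat.prime_of_mem_primeFactors (mem_filter.1 hp).1)).1
      (hq.dvd_of_dvd_pow hqp)]
    exact (mem_filter.1 hp).2

end Pool.Agent.Lib.MP_de9007_nt.PU
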